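import Mathlib
import Pool.Agent.Helper58_TOR.Tup
import Pool.Agent.Helper58_TOR.Fl2
import Pool.Agent.Helper41_TOR.Tm
import Pool.Agent.Helper41_TOR.Ho

/-! T2-STAB block of team TOR: definitions. See /team-store/PLAN_T2STAB.md -/

set_option autoImplicit false

namespace Pool.Agent.TST

open Pointwise Set CategoryTheory Rep Pool.Agent.TOR Pool.Agent.TOR.H58

/-! ## Part S: cuts of an arbitrary (torsion free) group F; everything by LEFT translation -/

section cuts

variable {F : Type} [Group F] {κ : Type}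

/-- almost invariant set: finite coboundary in every direction -/
def AI (E : Set F) : Prop := ∀ x : F, {y : F | ¬ (y ∈ E ↔ y * x ∈ E)}.Finite

/-- right stabiliser -/
def RSt (E : Set F) : Subgroup F where
  carrier := {a | ∀ y, y * a ∈ E ↔ y ∈ E}
  one_mem' := fun y => by rw [mul_one]
  mul_mem' := fun {a b} ha hb y => by rw [← mul_assoc]; exact (hb _).trans (ha y)
  inv_mem' := fun {a} ha y => by
    have := ha (y * a⁻¹)
    rw [inv_mul_cancel_right] at this
    exact this.symm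

theorem mem_RSt {E : Set F} {a : F} : a ∈ RSt E ↔ ∀ y, y * a ∈ E ↔ y ∈ E := Iff.rfl

open Classical in
/-- indicator function -/
noncomputable def ind (E : Set F) (y : F) : ℤ := if y ∈ E then 1 else 0

/-- the class of a cut: cl E x = #{y : y ∉ E, y x ∈ E} - #{y : y ∈ E, y x ∉ E} -/
noncomputable def cl (E : Set F) (x : F) : ℤ := ∑ᶠ y : F, (ind E (y * x) - ind E y)

/-- all half-spaces (translates and complements) of a family of cuts -/
def HS (E : κ → Set F) : Set (Set F) := {B | ∃ j, ∃ h : F, B = h • E j ∨ B = (h • E j)ᶜ}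

/-- nested family of nontrivial cuts -/
structure IsFam (E : κ → Set F) : Prop where
  ai : ∀ j, AI (E j)
  nest : ∀ i j (g : F), Nst (g • E i) (E j)
  cls : ∀ j, ∃ x, cl (E j) x ≠ 0

/-- right stabiliser of a family -/
def A0 (E : κ → Set F) : Subgroup F := ⨅ j, RSt (E j)

theorem mem_A0 {E : κ → Set F} {a : F} : a ∈ A0 E ↔ ∀ j, a ∈ RSt (E j) := by
  simp [A0, Subgroup.mem_iInf]

/-- a leg: D is a half-space visible from 1, and s is a point behind D separated from 1 by no
other translate of D -/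
structure IsLeg (E : κ → Set F) (D : Set F) (s : F) : Prop where
  mem : D ∈ HS E
  one : (1 : F) ∉ D
  hs : s ∈ D
  vis : ∀ C ∈ HS E, (1 : F) ∉ C → D ⊆ C → C = D
  only : ∀ h : F, ¬ ((1 : F) ∈ h • D ↔ s ∈ h • D) → h = 1

/-- F is the free product of A and the infinite cyclic group generated by s -/
structure IsFP (A : Subgroup F) (s : F) : Prop where
  gen : Subgroup.closure ((A : Set F) ∪ {s}) = ⊤
  ext : ∀ (H : Type) [Group H] (f : A →* H) (h : H),
    ∃ g : F →* H, (∀ a : A, g a = f a) ∧ g s = h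

end cuts

/-! ## Part L: letters, groups, characters -/

section letters

variable {ι β δ : Type}

open Classical in
/-- exponent of the letter z -/
noncomputable def expo (z : ι) : FreeGroup ι →* Multiplicative ℤ :=
  FreeGroup.lift fun x => if x = z then Multiplicative.ofAdd 1 else 1

/-- Γ'(F, z): automorphisms fixing z and acting on the abelianization by x ↦ x + h(x) z -/
def Gp (z : ι) : Subgroup (MulAut (FreeGroup ι)) where
  carrier := {φ | φ (FreeGroup.of z) = FreeGroup.of z ∧ ∀ y, y ≠ z → ∀ g, expo y (φ g) = expo y g}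
  one_mem' := ⟨rfl, fun _ _ _ => rfl⟩
  mul_mem' := fun {a b} ha hb => ⟨by rw [MulAut.mul_apply, hb.1, ha.1],
    fun y hy g => by rw [MulAut.mul_apply, ha.2 y hy, hb.2 y hy]⟩
  inv_mem' := fun {a} ha => ⟨by
      have h := congrArg (fun t => (a⁻¹ : MulAut (FreeGroup ι)) t) ha.1
      simp only [MulAut.inv_apply_self] at h
      exact h.symm, fun y hy g => by
      have h := ha.2 y hy ((a⁻¹ : MulAut (FreeGroup ι)) g)
      rw [MulAut.apply_inv_self] at h
      exact h.symm⟩

/-- the effect of φ on x: the exponent of z in φ(x) minus the exponent of z in x -/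
noncomputable def eff (z : ι) (φ : MulAut (FreeGroup ι)) (x : FreeGroup ι) : ℤ :=
  Multiplicative.toAdd (expo z (φ x)) - Multiplicative.toAdd (expo z x)

variable {R : Type} [CommRing R]

/-- value of the character χ of ℤ^ι at the function h (a homomorphism F → ℤ) -/
noncomputable def wt [Fintype ι] (χ : ι → Rˣ) (h : FreeGroup ι → ℤ) : Rˣ :=
  ∏ x : ι, χ x ^ h (FreeGroup.of x)

/-- active cut -/
def Actv [Fintype ι] (χ : ι → Rˣ) (E : Set (FreeGroup ι)) : Prop :=
  IsUnit ((wt χ (cl E) : R) - 1)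

/-- systems: nested families of active cuts rel z -/
structure IsSys [Fintype ι] {κ : Type} (z : ι) (χ : ι → Rˣ) (E : κ → Set (FreeGroup ι)) : Prop where
  ai : ∀ j, AI (E j)
  nest : ∀ i j (g : FreeGroup ι), Nst (g • E i) (E j)
  zin : ∀ j, FreeGroup.of z ∈ RSt (E j)
  act : ∀ j, Actv χ (E j)

/-- the stabiliser of a system (of its orbits) in Γ'(F, z) -/
def GS {κ : Type} (z : ι) (E : κ → Set (FreeGroup ι)) : Subgroup (Gp z) where
  carrier := {φ | ∀ j, ∃ g : FreeGroup ι, (φ : MulAut (FreeGroup ι)) '' E j = g • E j}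
  one_mem' := fun j => ⟨1, by simp⟩
  mul_mem' := fun {a b} ha hb j => by
    obtain ⟨g, hg⟩ := ha j
    obtain ⟨h, hh⟩ := hb j
    refine ⟨(a : MulAut (FreeGroup ι)) h * g, ?_⟩
    have h1 : ((a * b : Gp z) : MulAut (FreeGroup ι)) '' E j =
        (a : MulAut (FreeGroup ι)) '' ((b : MulAut (FreeGroup ι)) '' E j) := by
      rw [← Set.image_comp]; rfl
    rw [h1, hh, mul_smul, ← hg]
    ext x
    simp only [Set.mem_image, Set.mem_smul_set, smul_eq_mul]
    constructor
    · rintro ⟨_, ⟨u, hu, rfl⟩, rfl⟩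
      exact ⟨(a : MulAut (FreeGroup ι)) u, ⟨u, hu, rfl⟩, by rw [map_mul]⟩
    · rintro ⟨_, ⟨u, hu, rfl⟩, rfl⟩
      exact ⟨h * u, ⟨u, hu, rfl⟩, by rw [map_mul]⟩
  inv_mem' := fun {a} ha j => by
    obtain ⟨g, hg⟩ := ha j
    refine ⟨(a : MulAut (FreeGroup ι))⁻¹ g⁻¹, ?_⟩
    have h1 : E j = (fun x => (a : MulAut (FreeGroup ι))⁻¹ g * (a : MulAut (FreeGroup ι))⁻¹ x) '' E j := by
      have h2 := congrArg (fun S => ((a : MulAut (FreeGroup ι))⁻¹ : MulAut (FreeGroup ι)) '' S) hg
      simp only [← Set.image_comp] at h2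
      have h3 : (⇑((a : MulAut (FreeGroup ι))⁻¹) ∘ ⇑(a : MulAut (FreeGroup ι))) = id := by
        funext x; exact MulAut.inv_apply_self _ _ _
      rw [h3, Set.image_id] at h2
      conv_lhs => rw [h2]
      ext x
      simp only [Set.mem_image, Set.mem_smul_set, smul_eq_mul]
      constructor
      · rintro ⟨_, ⟨u, hu, rfl⟩, rfl⟩
        exact ⟨u, hu, by rw [map_mul]⟩
      · rintro ⟨u, hu, rfl⟩
        exact ⟨g * u, ⟨u, hu, rfl⟩, by rw [map_mul]⟩
    conv_rhs => rw [h1]
    ext x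
    simp only [Set.mem_image, Set.mem_smul_set, smul_eq_mul, InvMemClass.coe_inv]
    constructor
    · rintro ⟨u, hu, rfl⟩
      refine ⟨_, ⟨u, hu, rfl⟩, ?_⟩
      rw [← mul_assoc, ← map_mul, inv_mul_cancel, map_one, one_mul]
    · rintro ⟨_, ⟨u, hu, rfl⟩, rfl⟩
      refine ⟨u, hu, ?_⟩
      rw [← mul_assoc, ← map_mul, inv_mul_cancel, map_one, one_mul]

/-! ### stabilisation along an embedding of the letters -/

theorem fx {α G : Type*} [Group G] {f g : FreeGroup α →* G}
    (h : ∀ a, f (FreeGroup.of a) = g (FreeGroup.of a)) : f = g := FreeGroup.ext_hom _ _ h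

theorem mof {α α' : Type*} (f : α → α') (a : α) :
    FreeGroup.map f (FreeGroup.of a) = FreeGroup.of (f a) := FreeGroup.map.of

open Classical in
/-- extension of an endomorphism, identity on the new letters -/
noncomputable def upH (e : ι ↪ β) (φ : FreeGroup ι →* FreeGroup ι) : FreeGroup β →* FreeGroup β :=
  FreeGroup.lift fun b => if h : ∃ i, e i = b then FreeGroup.map e (φ (FreeGroup.of h.choose))
    else FreeGroup.of b

theorem upH_old (e : ι ↪ β) (φ : FreeGroup ι →* FreeGroup ι) (i : ι) :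
    upH e φ (FreeGroup.of (e i)) = FreeGroup.map e (φ (FreeGroup.of i)) := by
  have h : ∃ i', e i' = e i := ⟨i, rfl⟩
  rw [upH, FreeGroup.lift_apply_of, dif_pos h, e.injective h.choose_spec]

theorem upH_new (e : ι ↪ β) (φ : FreeGroup ι →* FreeGroup ι) (b : β) (hb : ∀ i, e i ≠ b) :
    upH e φ (FreeGroup.of b) = FreeGroup.of b := by
  rw [upH, FreeGroup.lift_apply_of, dif_neg (by rintro ⟨i, hi⟩; exact hb i hi)]

theorem upH_map (e : ι ↪ β) (φ : FreeGroup ι →* FreeGroup ι) (x : FreeGroup ι) :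
    upH e φ (FreeGroup.map e x) = FreeGroup.map e (φ x) := by
  have h : (upH e φ).comp (FreeGroup.map e) = (FreeGroup.map e).comp φ :=
    fx fun i => by
      rw [MonoidHom.comp_apply, MonoidHom.comp_apply, mof, upH_old]
  exact DFunLike.congr_fun h x

theorem upH_comp (e : ι ↪ β) (φ ψ : FreeGroup ι →* FreeGroup ι) :
    upH e (φ.comp ψ) = (upH e φ).comp (upH e ψ) := by
  refine fx fun b => ?_
  by_cases hb : ∃ i, e i = b
  · obtain ⟨i, rfl⟩ := hb
    rw [MonoidHom.comp_apply, upH_old, upH_old, upH_map]; rfl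
  · have hb' : ∀ i, e i ≠ b := fun i hi => hb ⟨i, hi⟩
    rw [MonoidHom.comp_apply, upH_new _ _ _ hb', upH_new _ _ _ hb', upH_new _ _ _ hb']

theorem upH_id (e : ι ↪ β) : upH e (MonoidHom.id _) = MonoidHom.id _ := by
  refine fx fun b => ?_
  by_cases hb : ∃ i, e i = b
  · obtain ⟨i, rfl⟩ := hb
    rw [upH_old]; rfl
  · have hb' : ∀ i, e i ≠ b := fun i hi => hb ⟨i, hi⟩
    rw [upH_new _ _ _ hb']; rfl

/-- extension of automorphisms -/
noncomputable def upE (e : ι ↪ β) : MulAut (FreeGroup ι) →* MulAut (FreeGroup β) where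
  toFun φ := MonoidHom.toMulEquiv (upH e φ.toMonoidHom) (upH e (φ⁻¹ : MulAut (FreeGroup ι)).toMonoidHom)
    (by
      rw [← upH_comp, ← upH_id e]; congr 1
      ext x; exact MulAut.inv_apply_self _ φ _)
    (by
      rw [← upH_comp, ← upH_id e]; congr 1
      ext x; exact MulAut.apply_inv_self _ φ _)
  map_one' := by
    ext x
    exact DFunLike.congr_fun (upH_id e) x
  map_mul' φ ψ := by
    ext x
    exact DFunLike.congr_fun (upH_comp e φ.toMonoidHom ψ.toMonoidHom) x

theorem upE_apply (e : ι ↪ β) (φ : MulAut (FreeGroup ι)) (x : FreeGroup β) :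
    upE e φ x = upH e φ.toMonoidHom x := rfl

theorem upE_map (e : ι ↪ β) (φ : MulAut (FreeGroup ι)) (x : FreeGroup ι) :
    upE e φ (FreeGroup.map e x) = FreeGroup.map e (φ x) := upH_map e _ x

theorem upE_new (e : ι ↪ β) (φ : MulAut (FreeGroup ι)) (b : β) (hb : ∀ i, e i ≠ b) :
    upE e φ (FreeGroup.of b) = FreeGroup.of b := upH_new e _ b hb

theorem expo_map (e : ι ↪ β) (z : ι) (x : FreeGroup ι) :
    expo (e z) (FreeGroup.map e x) = expo z x := by
  have h : (expo (e z)).comp (FreeGroup.map e) = expo z :=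
    fx fun i => by
      classical
      rw [MonoidHom.comp_apply, mof, expo, expo, FreeGroup.lift_apply_of,
        FreeGroup.lift_apply_of]
      simp only [e.injective.eq_iff]
  exact DFunLike.congr_fun h x

theorem expo_map_new (e : ι ↪ β) (b : β) (hb : ∀ i, e i ≠ b) (x : FreeGroup ι) :
    expo b (FreeGroup.map e x) = 1 := by
  have h : (expo b).comp (FreeGroup.map e) = 1 :=
    fx fun i => by
      classical
      rw [MonoidHom.comp_apply, mof, expo, FreeGroup.lift_apply_of]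
      rw [if_neg (hb i)]; rfl
  exact DFunLike.congr_fun h x

theorem upE_mem (e : ι ↪ β) (z : ι) (φ : MulAut (FreeGroup ι)) (hφ : φ ∈ Gp z) :
    upE e φ ∈ Gp (e z) := by
  refine ⟨?_, ?_⟩
  · rw [← mof e, upE_map, hφ.1]
  · intro y hy g
    have h : (expo y).comp (upE e φ).toMonoidHom = expo y := by
      refine fx fun b => ?_
      rw [MonoidHom.comp_apply]
      change expo y (upE e φ (FreeGroup.of b)) = _
      by_cases hb : ∃ i, e i = b
      · obtain ⟨i, rfl⟩ := hb
        rw [← mof e, upE_map]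
        by_cases hy' : ∃ j, e j = y
        · obtain ⟨j, rfl⟩ := hy'
          rw [expo_map, expo_map, hφ.2 j (fun h => hy (by rw [h]))]
        · have hy2 : ∀ i, e i ≠ y := fun i hi => hy' ⟨i, hi⟩
          rw [expo_map_new e y hy2, expo_map_new e y hy2]
      · rw [upE_new _ _ _ fun i hi => hb ⟨i, hi⟩]
    exact DFunLike.congr_fun h g

/-- stabilisation Γ'(F, z) → Γ'(F⁺, z) -/
noncomputable def upG (e : ι ↪ β) (z : ι) : Gp z →* Gp (e z) :=
  ((upE e).comp (Gp z).subtype).codRestrict (Gp (e z)) fun φ => upE_mem e z _ φ.2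

theorem upG_coe (e : ι ↪ β) (z : ι) (φ : Gp z) :
    (upG e z φ : MulAut (FreeGroup β)) = upE e (φ : MulAut (FreeGroup ι)) := rfl

/-! ### the free product F⁺ = F * T, letters ι ⊕ δ -/

/-- inclusion F → F⁺ -/
abbrev jn (δ : Type) : FreeGroup ι →* FreeGroup (ι ⊕ δ) := FreeGroup.map Sum.inl

/-- ψ = φ on F, t_d ↦ a_d t_d b_d (a_d, b_d ∈ F) -/
noncomputable def psiH (φ : FreeGroup ι →* FreeGroup ι) (a b : δ → FreeGroup ι) :
    FreeGroup (ι ⊕ δ) →* FreeGroup (ι ⊕ δ) :=
  FreeGroup.lift (Sum.elim (fun i => jn δ (φ (FreeGroup.of i)))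
    fun d => jn δ (a d) * FreeGroup.of (Sum.inr d) * jn δ (b d))

theorem psiH_jn (φ : FreeGroup ι →* FreeGroup ι) (a b : δ → FreeGroup ι) (x : FreeGroup ι) :
    psiH φ a b (jn δ x) = jn δ (φ x) := by
  have h : (psiH φ a b).comp (jn δ) = (jn δ).comp φ := fx fun i => by
    rw [MonoidHom.comp_apply, mof, psiH, FreeGroup.lift_apply_of]; rfl
  exact DFunLike.congr_fun h x

theorem psiH_t (φ : FreeGroup ι →* FreeGroup ι) (a b : δ → FreeGroup ι) (d : δ) :
    psiH φ a b (FreeGroup.of (Sum.inr d)) =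
      jn δ (a d) * FreeGroup.of (Sum.inr d) * jn δ (b d) := by
  rw [psiH, FreeGroup.lift_apply_of]; rfl

theorem psiH_comp (φ ψ : FreeGroup ι →* FreeGroup ι) (a b a' b' : δ → FreeGroup ι) :
    (psiH φ a b).comp (psiH ψ a' b') =
      psiH (φ.comp ψ) (fun d => φ (a' d) * a d) (fun d => b d * φ (b' d)) := by
  refine fx fun b => ?_
  rcases b with i | d
  · have h1 : (FreeGroup.of (Sum.inl i : ι ⊕ δ)) = jn δ (FreeGroup.of i) := by
      rw [mof]
    rw [MonoidHom.comp_apply, h1, psiH_jn, psiH_jn, psiH_jn]; rfl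
  · rw [MonoidHom.comp_apply, psiH_t, psiH_t, map_mul, map_mul, psiH_jn, psiH_jn, psiH_t]
    simp only [map_mul, mul_assoc]

/-- ψ as an automorphism -/
noncomputable def psi (φ : MulAut (FreeGroup ι)) (a b : δ → FreeGroup ι) :
    MulAut (FreeGroup (ι ⊕ δ)) :=
  MonoidHom.toMulEquiv (psiH φ.toMonoidHom a b)
    (psiH (φ⁻¹ : MulAut (FreeGroup ι)).toMonoidHom (fun d => φ⁻¹ (a d)⁻¹) (fun d => φ⁻¹ (b d)⁻¹))
    (by
      rw [psiH_comp]
      refine fx fun b => ?_
      rcases b with i | d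
      · have h1 : (FreeGroup.of (Sum.inl i : ι ⊕ δ)) = jn δ (FreeGroup.of i) := by
          rw [mof]
        rw [h1, psiH_jn]
        exact congrArg _ (MulAut.inv_apply_self _ φ _)
      · rw [psiH_t]
        change jn δ (φ⁻¹ (a d) * φ⁻¹ (a d)⁻¹) * _ * jn δ (φ⁻¹ (b d)⁻¹ * φ⁻¹ (b d)) = _
        simp)
    (by
      rw [psiH_comp]
      refine fx fun b => ?_
      rcases b with i | d
      · have h1 : (FreeGroup.of (Sum.inl i : ι ⊕ δ)) = jn δ (FreeGroup.of i) := by
          rw [mof]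
        rw [h1, psiH_jn]
        exact congrArg _ (MulAut.apply_inv_self _ φ _)
      · rw [psiH_t]
        change jn δ (φ (φ⁻¹ (a d)⁻¹) * a d) * _ * jn δ (b d * φ (φ⁻¹ (b d)⁻¹)) = _
        simp)

theorem psi_jn (φ : MulAut (FreeGroup ι)) (a b : δ → FreeGroup ι) (x : FreeGroup ι) :
    psi φ a b (jn δ x) = jn δ (φ x) := psiH_jn _ a b x

theorem psi_t (φ : MulAut (FreeGroup ι)) (a b : δ → FreeGroup ι) (d : δ) :
    psi φ a b (FreeGroup.of (Sum.inr d)) = jn δ (a d) * FreeGroup.of (Sum.inr d) * jn δ (b d) :=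
  psiH_t _ a b d

theorem psi_mul (φ ψ : MulAut (FreeGroup ι)) (a b a' b' : δ → FreeGroup ι) :
    psi φ a b * psi ψ a' b' =
      psi (φ * ψ) (fun d => φ (a' d) * a d) (fun d => b d * φ (b' d)) := by
  ext x
  exact DFunLike.congr_fun (psiH_comp φ.toMonoidHom ψ.toMonoidHom a b a' b') x

/-- the head of g: the product of the letters of F before the first letter of T -/
noncomputable def hd (g : FreeGroup (ι ⊕ δ)) : FreeGroup ι := by
  classical
  exact FreeGroup.mk ((g.toWord.takeWhile fun p => p.1.isLeft).filterMap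
    fun p => p.1.getLeft?.map fun i => (i, p.2))

/-- the four properties of the head used in the sequel -/
structure IsHd (π : FreeGroup (ι ⊕ δ) → FreeGroup ι) : Prop where
  old : ∀ x, π (jn δ x) = x
  left : ∀ x g, π (jn δ x * g) = x * π g
  new : ∀ g d, π (g * FreeGroup.of (Sum.inr d)) = π g
  right : ∀ g x, g ∉ (jn δ).range → π (g * jn δ x) = π g
  dich : ∀ g, g ∉ (jn δ).range → ∀ u, π u = π g ∨ π (g⁻¹ * u) = π g⁻¹

/-- E⁺ -/
def pl (δ : Type) (E : Set (FreeGroup ι)) : Set (FreeGroup (ι ⊕ δ)) := {g | hd g ∈ E}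

/-! ### characters -/

/-- the character of Γ'(F, z) defined by χ : ι → Rˣ -/
noncomputable def chv [Fintype ι] (z : ι) (χ : ι → Rˣ) (φ : MulAut (FreeGroup ι)) : Rˣ :=
  wt χ (eff z φ)

theorem hzpow {G : Type} [Group G] (f : G →* Multiplicative ℤ) (n : ℤ) (x : G) :
    (f ^ n) x = (f x) ^ n :=
  map_zpow (MonoidHom.eval x : (G →* Multiplicative ℤ) →* Multiplicative ℤ) f n

theorem hom_eq_prod [Fintype ι] (h : FreeGroup ι →* Multiplicative ℤ) :
    h = ∏ y : ι, (expo y) ^ (Multiplicative.toAdd (h (FreeGroup.of y))) := by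
  classical
  refine fx fun a => ?_
  rw [MonoidHom.finsetProd_apply, Finset.prod_eq_single a]
  · rw [hzpow, expo, FreeGroup.lift_apply_of, if_pos rfl, ← ofAdd_zsmul]
    simp
  · intro b _ hb
    rw [hzpow, expo, FreeGroup.lift_apply_of, if_neg (fun h => hb h.symm), one_zpow]
  · intro h; exact absurd (Finset.mem_univ _) h

/-- homomorphisms killing z are invariant under Γ' -/
theorem hom_inv [Finite ι] {z : ι} (h : FreeGroup ι →* Multiplicative ℤ)
    (hz : h (FreeGroup.of z) = 1) (ψ : MulAut (FreeGroup ι)) (hψ : ψ ∈ Gp z) (x : FreeGroup ι) :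
    h (ψ x) = h x := by
  have : Fintype ι := Fintype.ofFinite ι
  have e := hom_eq_prod h
  rw [e, MonoidHom.finsetProd_apply, MonoidHom.finsetProd_apply]
  refine Finset.prod_congr rfl fun y _ => ?_
  rw [hzpow, hzpow]
  by_cases hy : y = z
  · subst hy
    rw [hz, toAdd_one, zpow_zero, zpow_zero]
  · rw [hψ.2 y hy]

/-- the effect as a homomorphism -/
noncomputable def effH (z : ι) (φ : MulAut (FreeGroup ι)) : FreeGroup ι →* Multiplicative ℤ :=
  (expo z).comp φ.toMonoidHom / expo z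

theorem eff_eq (z : ι) (φ : MulAut (FreeGroup ι)) (x : FreeGroup ι) :
    eff z φ x = Multiplicative.toAdd (effH z φ x) := rfl

theorem eff_mul [Finite ι] (z : ι) (φ ψ : Gp z) (x : FreeGroup ι) :
    eff z ((φ * ψ : Gp z) : MulAut (FreeGroup ι)) x = eff z φ x + eff z ψ x := by
  have h := hom_inv (z := z) (effH z φ) (by
    change expo z ((φ : MulAut (FreeGroup ι)) (FreeGroup.of z)) / expo z (FreeGroup.of z) = 1
    rw [φ.2.1, div_self']) ψ ψ.2 x
  have h2 := congrArg Multiplicative.toAdd h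
  rw [← eff_eq, ← eff_eq] at h2
  rw [← h2]
  change Multiplicative.toAdd (expo z ((φ : MulAut (FreeGroup ι)) ((ψ : MulAut (FreeGroup ι)) x))) - _ =
    (Multiplicative.toAdd (expo z ((φ : MulAut (FreeGroup ι)) ((ψ : MulAut (FreeGroup ι)) x))) - _) +
    (_ - _)
  ring

/-- the character -/
noncomputable def chr [Fintype ι] (z : ι) (χ : ι → Rˣ) : Gp z →* Rˣ where
  toFun φ := chv z χ φ
  map_one' := by
    refine Finset.prod_eq_one fun x _ => ?_
    change χ x ^ (_ - _) = 1
    rw [show ((1 : Gp z) : MulAut (FreeGroup ι)) (FreeGroup.of x) = FreeGroup.of x from rfl,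
      sub_self, zpow_zero]
  map_mul' φ ψ := by
    unfold chv wt
    rw [← Finset.prod_mul_distrib]
    refine Finset.prod_congr rfl fun x _ => ?_
    rw [eff_mul, zpow_add]

theorem chr_apply [Fintype ι] (z : ι) (χ : ι → Rˣ) (φ : Gp z) :
    chr z χ φ = ∏ x : ι, χ x ^ eff z φ (FreeGroup.of x) := rfl

/-- the character with values in R -/
noncomputable def chR [Fintype ι] (z : ι) (χ : ι → Rˣ) : Gp z →* R :=
  (Units.coeHom R).comp (chr z χ)

theorem chr_up [Fintype ι] [Fintype β] (e : ι ↪ β) (z : ι) (χ : β → Rˣ) (φ : Gp z) :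
    chr (e z) χ (upG e z φ) = chr z (fun i => χ (e i)) φ := by
  classical
  rw [chr_apply, chr_apply, ← Finset.prod_subset (Finset.subset_univ (Finset.univ.map e))]
  · rw [Finset.prod_map]
    refine Finset.prod_congr rfl fun i _ => ?_
    congr 1
    unfold eff
    rw [upG_coe, ← mof e, upE_map, expo_map, expo_map]
  · intro b _ hb
    have hb' : ∀ i, e i ≠ b := fun i hi => hb (Finset.mem_map.2 ⟨i, Finset.mem_univ _, hi⟩)
    unfold eff
    rw [upG_coe, upE_new e _ b hb', sub_self, zpow_zero]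

theorem chR_up [Fintype ι] [Fintype β] (e : ι ↪ β) (z : ι) (χ : β → Rˣ) (φ : Gp z) :
    chR (e z) χ (upG e z φ) = chR z (fun i => χ (e i)) φ :=
  congrArg Units.val (chr_up e z χ φ)

end letters

/-! ## Part V: the complex of spheres -/

section complex

variable {ι : Type} [Fintype ι] {R : Type} [CommRing R]

/-- good spheres -/
structure Sph (z : ι) (χ : ι → Rˣ) (E : Set (FreeGroup ι)) : Prop where
  ai : AI E
  zin : FreeGroup.of z ∈ RSt E
  sn : SN (FreeGroup ι) E
  act : Actv χ E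

/-- F-orbits -/
def sphS (z : ι) (χ : ι → Rˣ) : Setoid {E : Set (FreeGroup ι) // Sph z χ E} where
  r E E' := ∃ g : FreeGroup ι, E'.1 = g • E.1
  iseqv := ⟨fun E => ⟨1, (one_smul _ _).symm⟩,
    fun {E E'} ⟨g, hg⟩ => ⟨g⁻¹, by rw [hg, inv_smul_smul]⟩,
    fun {E E' E''} ⟨g, hg⟩ ⟨h, hh⟩ => ⟨h * g, by rw [hh, hg, mul_smul]⟩⟩

/-- vertices -/
def VV (z : ι) (χ : ι → Rˣ) : Type := Quotient (sphS z χ)

/-- representative of a vertex -/
noncomputable def hsV {z : ι} {χ : ι → Rˣ} (v : VV z χ) : Set (FreeGroup ι) := (Quotient.out v).1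

/-- ordered simplices -/
abbrev XX (z : ι) (χ : ι → Rˣ) (p : ℕ) : Type :=
  OX (KF (FreeGroup ι) (hsV (z := z) (χ := χ))) p

end complex

end Pool.Agent.TST
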