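import Pool.Agent.Helper79_TOR.Defs

/-! T2-STAB block of team TOR: statements of the modules. See /team-store/PLAN_T2STAB.md -/

set_option autoImplicit false

namespace Pool.Agent.TST

open Pointwise Set CategoryTheory Rep Pool.Agent.TOR Pool.Agent.TOR.H58

/-! ## Part S (helper76): structure of nested families in a torsion free group -/

/-- LEG: existence of a leg -/
def LEG : Prop := ∀ (F : Type) [Group F] [IsMulTorsionFree F] (κ : Type) [Finite κ] [Nonempty κ]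
  (E : κ → Set F), IsFam E → ∃ D s, IsLeg E D s

/-- STR: F = A(D) * <s> -/
def STR : Prop := ∀ (F : Type) [Group F] [IsMulTorsionFree F] (κ : Type) [Finite κ]
  (E : κ → Set F) (D : Set F) (s : F), IsFam E → IsLeg E D s → IsFP (RSt D) s

/-- GAM: automorphisms preserving the family move D by an element of A0 -/
def GAM : Prop := ∀ (F : Type) [Group F] [IsMulTorsionFree F] (κ : Type) [Finite κ]
  (E : κ → Set F) (D : Set F) (s : F), IsFam E → IsLeg E D s →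
  ∀ φ : MulAut F, (∀ j, ∃ g : F, φ '' E j = g • E j) →
    ∃ c ∈ A0 E, φ '' D = c • D ∧ (c * s)⁻¹ * φ s ∈ RSt D ∧ (∀ c' : F, φ '' D = c' • D → c' = c) ∧
      (∀ a ∈ A0 E, φ a ∈ A0 E) ∧ (∀ a ∈ RSt D, φ a ∈ RSt D)

/-- SLD: slides preserve the family -/
def SLD : Prop := ∀ (F : Type) [Group F] [IsMulTorsionFree F] (κ : Type) [Finite κ]
  (E : κ → Set F) (D : Set F) (s : F), IsFam E → IsLeg E D s →
  ∀ μ ∈ A0 E, ∀ (Y : MulAut F) (B : Set F), B ⊆ (RSt D : Set F) →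
    Subgroup.closure (B ∪ {s}) = ⊤ → (∀ b ∈ B, Y b = b) → Y s = μ * s →
    ∀ j, ∃ g : F, Y '' E j = g • E j

/-! ## Part X: the complex -/

/-- FL3 (helper58): the reference sphere E_i = words beginning with the letter i -/
def FL3 : Prop := ∀ (ι : Type) [Fintype ι] (i : ι), ∃ E0 : Set (FreeGroup ι),
  AI E0 ∧ SN (FreeGroup ι) E0 ∧ (∀ j, j ≠ i → FreeGroup.of j ∈ RSt E0) ∧
  (∀ j, j ≠ i → cl E0 (FreeGroup.of j) = 0) ∧
  (cl E0 (FreeGroup.of i) = 1) ∧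
  ∀ A : Set (FreeGroup ι), AI A → (Cr (FreeGroup ι) E0 A).Finite

/-- FLQ: helper58's flow theorem where the closed condition Q is also available in hP and hPf -/
def FLQ : Prop := ∀ (G Ω V : Type) [Group G] [MulAction G Ω] (M : Type) [AddCommGroup M]
    (hs : V → Set Ω) (P Q : Set Ω → Prop)
    (_ : ∀ A B : Set Ω, Disjoint A B → Q A → Q B → P (A ∪ B) → P A ∨ P B)
    (_ : ∀ A, P A → Q A → ∀ g : G, g ≠ 1 → g • A ≠ A ∧ g • A ≠ Aᶜ)
    (_ : ∀ A (g : G), P A → P (g • A)) (_ : ∀ A, P A → P Aᶜ)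
    (_ : ∀ C E, ¬ Nst C E → Q C → Q E → Q (C ∩ E))
    (_ : ∀ A (g : G), Q A → Q (g • A)) (_ : ∀ A, Q A → Q Aᶜ) (_ : ∀ v, Q (hs v))
    (e : V) (_ : ∀ v, (Cr G (hs e) (hs v)).Finite) (_ : ∀ v, P (hs v))
    (_ : ∀ v, SN G (hs v))
    (_ : ∀ A, P A → Q A → SN G A → (Cr G (hs e) A).Finite →
      ∃ v, ∃ g : G, hs v = g • A ∨ hs v = (g • A)ᶜ),
    Acyc M (KF G hs)

/-- XEX: the complex of active spheres is acyclic -/
def XEX : Prop := ∀ (R : Type) [CommRing R] [IsLocalRing R] (ι : Type) [Fintype ι] (z : ι)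
  (χ : ι → Rˣ) (i : ι), i ≠ z → IsUnit ((χ i : R) - 1) → ∀ (M : Type) [AddCommGroup M],
  Acyc M (KF (FreeGroup ι) (hsV (z := z) (χ := χ)))

/-! ## Part B: the head and E⁺ -/

/-- HDS -/
def HDS : Prop := ∀ (ι δ : Type), IsHd (hd : FreeGroup (ι ⊕ δ) → FreeGroup ι)

/-- PLA: E⁺ is almost invariant, class of E⁺ -/
def PLA : Prop := ∀ (ι δ : Type) (E : Set (FreeGroup ι)), AI E →
  AI (pl δ E) ∧ (∀ x, cl (pl δ E) (jn δ x) = cl E x) ∧
  ∀ d : δ, cl (pl δ E) (FreeGroup.of (Sum.inr d)) = 0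

/-- PLN: nestedness of E⁺ -/
def PLN : Prop := ∀ (ι δ : Type) (E E' : Set (FreeGroup ι)),
  (∀ g : FreeGroup ι, Nst (g • E) E') → ∀ g : FreeGroup (ι ⊕ δ), Nst (g • pl δ E) (pl δ E')

/-- PLP: image of E⁺ under ψ -/
def PLP : Prop := ∀ (ι δ : Type) (E : Set (FreeGroup ι)) (φ : MulAut (FreeGroup ι))
  (a b : δ → FreeGroup ι), (∀ d, a d ∈ RSt (φ '' E)) → (∀ d, b d ∈ RSt (φ '' E)) →
  psi φ a b '' pl δ E = pl δ (φ '' E)

/-- PLL: the leg of E is a leg of E⁺ -/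
def PLL : Prop := ∀ (ι δ : Type) (κ : Type) (E : κ → Set (FreeGroup ι)) (D : Set (FreeGroup ι))
  (s : FreeGroup ι), IsLeg E D s → IsLeg (fun j => pl δ (E j)) (pl δ D) (jn δ s)

/-! ## Part H: homological algebra -/

/-- KAB: abstract kill (from van_product) -/
def KAB : Prop := ∀ (R : Type) [CommRing R] (G Γ : Type) [Group G] [Group Γ] (i : G →* Γ) (r : ℕ)
  (P : Fin r → Subgroup Γ) (_ : ∀ a b, a ≠ b → ∀ x ∈ P a, ∀ y ∈ P b, x * y = y * x)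
  (_ : ∀ j g, ∀ x ∈ P j, i g * x * (i g)⁻¹ ∈ P j)
  (A : Rep.{0} R Γ) (_ : ∀ j, ∃ z ∈ P j, ∃ v : R, IsUnit (v - 1) ∧ ∀ a, A.ρ z a = v • a)
  (B : Rep.{0} R G) (f : B ⟶ res i A) (q : ℕ) (_ : q < r), groupHomology.map i f q = 0

/-- ZAB: abstract kill by an element commuting with the image -/
def ZAB : Prop := ∀ (R : Type) [CommRing R] (G Γ : Type) [Group G] [Group Γ] (i : G →* Γ)
  (z : Γ) (_ : ∀ g, z * i g = i g * z) (A : Rep.{0} R Γ) (v : R) (_ : IsUnit (v - 1))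
  (_ : ∀ a, A.ρ z a = v • a) (B : Rep.{0} R G) (f : B ⟶ res i A) (q : ℕ),
  groupHomology.map i f q = 0

/-- CRE (helper57): cross effect, internal form -/
def CRE : Prop := ∀ (R : Type) [CommRing R] (G Γ : Type) [Group G] [Group Γ] (M : Rep.{0} R Γ)
  (δ : Type) [Fintype δ] [DecidableEq δ] (A : δ → Subgroup Γ)
  (_ : ∀ a b, a ≠ b → ∀ x ∈ A a, ∀ y ∈ A b, x * y = y * x)
  (s : Finset δ → G →* Γ) (_ : ∀ d g, ∀ x ∈ A d, s ∅ g * x * (s ∅ g)⁻¹ ∈ A d)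
  (_ : ∀ d, ∀ x ∈ A d, ∀ m, M.ρ x m = m) (c : δ → G → Γ) (_ : ∀ d g, c d g ∈ A d)
  (_ : ∀ J d, d ∉ J → ∀ g, s (insert d J) g = c d g * s J g)
  (N : Rep.{0} R G) (f : ∀ J, N ⟶ res (s J) M) (_ : ∀ J x, (f J).hom x = (f ∅).hom x)
  (t : ℕ) (_ : t < Fintype.card δ),
  ∑ J : Finset δ, ((-1 : ℤ) ^ J.card) • groupHomology.map (s J) (f J) t = 0

/-- LAD (helper41): the ladder -/
def LAD : Prop := ∀ (k : Type) [CommRing k] (m : ℕ)
  (G : ℕ → Type) [∀ j, Group (G j)] (s : ∀ j, G j →* G (j + 1))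
  (A : ∀ j, Rep.{0} k (G j)) (a : ∀ j, A j ⟶ res (s j) (A (j + 1)))
  (X : ℕ → ℕ → Type) [∀ j p, MulAction (G j) (X j p)] [∀ j, Nonempty (X j 0)]
  (face : ∀ j p, Fin (p + 2) → X j (p + 1) → X j p) (e : ∀ j p, X j p → X (j + 1) p)
  (_ : ∀ j p i (g : G j) x, face j p i (g • x) = g • face j p i x)
  (_ : ∀ j p (i : Fin (p + 2)) (l : Fin (p + 3)) (h : (l : ℕ) ≤ i) x,
    face j p i (face j (p + 1) l x) =
      face j p (Fin.castLT l (lt_of_le_of_lt h i.2)) (face j (p + 1) i.succ x))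
  (_ : ∀ j, 0 < m → ∀ c : X j 0 →₀ A j, auM (X j 0) (A j) c = 0 →
    ∃ b, bdM (X j) (face j) (A j) 0 b = c)
  (_ : ∀ j p, p + 1 < m → ∀ c : X j (p + 1) →₀ A j, bdM (X j) (face j) (A j) p c = 0 →
    ∃ b, bdM (X j) (face j) (A j) (p + 1) b = c)
  (_ : ∀ j p (g : G j) x, e j p (g • x) = s j g • e j p x)
  (_ : ∀ j p i x, e j p (face j p i x) = face (j + 1) p i (e j (p + 1) x))
  (_ : ∀ j, ∀ p ≤ m, ∀ x : X j p,
    ∀ sx : MulAction.stabilizer (G j) x →* MulAction.stabilizer (G (j + 1)) (e j p x),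
    (∀ g, ((sx g : MulAction.stabilizer (G (j + 1)) (e j p x)) : G (j + 1)) = s j g) →
    ∀ f : res (MulAction.stabilizer (G j) x).subtype (A j) ⟶
      res sx (res (MulAction.stabilizer (G (j + 1)) (e j p x)).subtype (A (j + 1))),
    (∀ v : A j, f.hom v = (a j).hom v) → groupHomology.map sx f (m - p) = 0)
  (L : ∀ n, groupHomology (A 0) m ⟶ groupHomology (A n) m) (_ : L 0 = 𝟙 _)
  (_ : ∀ n, L (n + 1) = L n ≫ groupHomology.map (s n) (a n) m),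
  L (m + 1) = 0

/-- TOZ (helper41): torsion for a map which becomes zero -/
def TOZ : Prop := ∀ (G₁ G₂ : Type) [Group G₁] [Group G₂] (N₁ : Subgroup G₁) (N₂ : Subgroup G₂)
  [N₂.Normal] (s : G₁ →* G₂) (sN : N₁ →* N₂) (_ : ∀ x, (sN x : G₂) = s x)
  (U : Type) [CommGroup U] (deg : G₂ →* U) (_ : ∀ g, deg g = 1 ↔ g ∈ N₂)
  (_ : Function.Surjective deg) (R : Type) [CommRing R] [Algebra (MonoidAlgebra ℚ U) R]
  (M : Submonoid (MonoidAlgebra ℚ U)) [IsLocalization M R]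
  (_ : M ≤ nonZeroDivisors (MonoidAlgebra ℚ U)) (i : ℕ)
  (ρ : U →* Module.End ℚ (groupHomology (Rep.trivial ℚ N₂ ℚ) i))
  (_ : ∀ g : G₂, ρ (deg g) = cR N₂ i g)
  (_ : ∀ f : chRep R (((algebraMap (MonoidAlgebra ℚ U) R : MonoidAlgebra ℚ U →* R).comp
      (uL deg⁻¹)).comp s) ⟶ res s (chRep R ((algebraMap (MonoidAlgebra ℚ U) R :
      MonoidAlgebra ℚ U →* R).comp (uL deg⁻¹))), (∀ r : R, (f.hom r : R) = r) →
    groupHomology.map s f i = 0)
  (ψ : Rep.trivial ℚ N₁ ℚ ⟶ res sN (Rep.trivial ℚ N₂ ℚ)) (_ : ∀ r : ℚ, (ψ.hom r : ℚ) = r)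
  (x : groupHomology (Rep.trivial ℚ N₁ ℚ) i),
  ∃ p ∈ M, MonoidAlgebra.lift ℚ (Module.End ℚ (groupHomology (Rep.trivial ℚ N₂ ℚ) i)) U ρ p
    ((groupHomology.map sN ψ i).hom x) = 0

/-! ## Part C: stabilisers -/

section stab

variable {ι δ κ : Type}

/-- the functions γ -/
structure IsGam (z : ι) (E : κ → Set (FreeGroup ι)) (D : Set (FreeGroup ι)) (s : FreeGroup ι)
    (γ : GS z E → FreeGroup ι) : Prop where
  mem : ∀ φ, γ φ ∈ A0 E
  img : ∀ φ : GS z E, (φ : MulAut (FreeGroup ι)) '' D = γ φ • D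
  coc : ∀ φ ψ : GS z E, γ (φ * ψ) = (φ : MulAut (FreeGroup ι)) (γ ψ) * γ φ
  sim : ∀ φ : GS z E, (γ φ * s)⁻¹ * (φ : MulAut (FreeGroup ι)) s ∈ RSt D
  stA : ∀ φ : GS z E, ∀ a ∈ A0 E, (φ : MulAut (FreeGroup ι)) a ∈ A0 E
  stD : ∀ φ : GS z E, ∀ a ∈ RSt D, (φ : MulAut (FreeGroup ι)) a ∈ RSt D

open Classical in
/-- ι_J(φ) : φ on F, t_d ↦ γ t_d γ⁻¹ for d ∈ J, t_d ↦ t_d for d ∉ J -/
noncomputable def iot {z : ι} {E : κ → Set (FreeGroup ι)} (γ : GS z E → FreeGroup ι)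
    (J : Finset δ) (φ : GS z E) : MulAut (FreeGroup (ι ⊕ δ)) :=
  psi ((φ : Gp z) : MulAut (FreeGroup ι)) (fun d => if d ∈ J then γ φ else 1)
    (fun d => if d ∈ J then (γ φ)⁻¹ else 1)

end stab

/-- the family E⁺ -/
abbrev plF {ι κ : Type} (δ : Type) (E : κ → Set (FreeGroup ι)) : κ → Set (FreeGroup (ι ⊕ δ)) :=
  fun j => pl δ (E j)

/-- restriction of the rank one module to a stabiliser -/
noncomputable abbrev chG {ι κ : Type} [Fintype ι] {R : Type} [CommRing R] (z : ι) (χ : ι → Rˣ)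
    (E : κ → Set (FreeGroup ι)) : Rep.{0} R (GS z E) :=
  res (GS z E).subtype (chRep R (chR z χ))

/-- the embedding ι → ι ⊕ δ -/
abbrev inE (ι δ : Type) : ι ↪ ι ⊕ δ := Function.Embedding.inl

/-- the stabilisation Γ'(F, z) → Γ'(F⁺, z) for F⁺ = F * T -/
noncomputable abbrev upS {ι : Type} (δ : Type) (z : ι) : Gp z →* Gp (Sum.inl z : ι ⊕ δ) :=
  upG (inE ι δ) z

/-- IOH: systems and their stabilisers; the maps ι_J are homomorphisms into the stabiliser of E⁺,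
and the commuting groups t_d ↦ a⁻¹ t_d a (a ∈ A0) -/
def IOH : Prop := ∀ (ι δ κ : Type) (z : ι) (E : κ → Set (FreeGroup ι)) (D : Set (FreeGroup ι))
  (s : FreeGroup ι) (γ : GS z E → FreeGroup ι), IsGam z E D s γ →
  (∀ J : Finset δ, ∃ iJ : GS z E →* GS (Sum.inl z) (plF δ E),
    ∀ φ, ((iJ φ).1.1 : MulAut (FreeGroup (ι ⊕ δ))) = iot γ J φ) ∧
  ∀ (a b : δ → FreeGroup ι), (∀ d, a d ∈ A0 E) → (∀ d, b d ∈ A0 E) →
    (∀ d y, y ≠ z → expo y (a d * b d) = 1) →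
    ∃ h : psi 1 a b ∈ Gp (Sum.inl z), (⟨psi 1 a b, h⟩ : Gp (Sum.inl z)) ∈ GS (Sum.inl z) (plF δ E)

/-- KLL: the kill. J = set of blocked handles, all inactive, t < |J| -/
def KLL : Prop := ∀ (t : ℕ) (R : Type) [CommRing R] [IsLocalRing R] (ι δ : Type) [Fintype ι]
  [Fintype δ] (z : ι) (χ : ι ⊕ δ → Rˣ) (κ : Type) [Finite κ] [Nonempty κ]
  (E : κ → Set (FreeGroup ι)), IsSys z (fun i => χ (Sum.inl i)) E →
  ∀ (D : Set (FreeGroup ι)) (s : FreeGroup ι) (γ : GS z E → FreeGroup ι), IsLeg E D s →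
  IsGam z E D s γ → ∀ J : Finset δ, t < J.card → (∀ d ∈ J, ¬ IsUnit ((χ (Sum.inr d) : R) - 1)) →
  ∀ iJ : GS z E →* GS (Sum.inl z) (plF δ E),
    (∀ φ, ((iJ φ).1.1 : MulAut (FreeGroup (ι ⊕ δ))) = iot γ J φ) →
  ∀ f : chG z (fun i => χ (Sum.inl i)) E ⟶ res iJ (chG (Sum.inl z) χ (plF δ E)),
    (∀ r : R, (f.hom r : R) = r) → groupHomology.map iJ f t = 0

/-- ZER: if a new letter is active the stabilisation map vanishes -/
def ZER : Prop := ∀ (t : ℕ) (R : Type) [CommRing R] (ι δ : Type) [Fintype ι]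
  [Fintype δ] (z : ι) (χ : ι ⊕ δ → Rˣ) (κ : Type)
  (E : κ → Set (FreeGroup ι)), IsSys z (fun i => χ (Sum.inl i)) E →
  ∀ d : δ, IsUnit ((χ (Sum.inr d) : R) - 1) →
  ∀ sx : GS z E →* GS (Sum.inl z) (plF δ E),
    (∀ φ, ((sx φ : GS (Sum.inl z) (plF δ E)) : Gp (Sum.inl z)) = upS δ z (φ : Gp z)) →
  ∀ f : chG z (fun i => χ (Sum.inl i)) E ⟶ res sx (chG (Sum.inl z) χ (plF δ E)),
    (∀ r : R, (f.hom r : R) = r) → groupHomology.map sx f t = 0

/-- ZST: the stabilisation map of the stabilisers vanishes if |δ| ≥ 2 t + 1 -/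
def ZST : Prop := ∀ (t : ℕ) (R : Type) [CommRing R] [IsLocalRing R] (ι δ : Type) [Fintype ι]
  [Fintype δ] (z : ι) (χ : ι ⊕ δ → Rˣ) (κ : Type) [Finite κ] [Nonempty κ]
  (E : κ → Set (FreeGroup ι)), IsSys z (fun i => χ (Sum.inl i)) E → 2 * t + 1 ≤ Fintype.card δ →
  ∀ sx : GS z E →* GS (Sum.inl z) (plF δ E),
    (∀ φ, ((sx φ : GS (Sum.inl z) (plF δ E)) : Gp (Sum.inl z)) = upS δ z (φ : Gp z)) →
  ∀ f : chG z (fun i => χ (Sum.inl i)) E ⟶ res sx (chG (Sum.inl z) χ (plF δ E)),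
    (∀ r : R, (f.hom r : R) = r) → groupHomology.map sx f t = 0

/-! ## Part T: the theorem -/

/-- T2S: the stabilisation theorem -/
def T2S : Prop := ∀ (q : ℕ) (R : Type) [CommRing R] [IsLocalRing R] (ι β : Type) [Fintype ι]
  [Fintype β] (e : ι ↪ β) (z : ι) (χ : β → Rˣ) (i : ι), i ≠ z → IsUnit ((χ (e i) : R) - 1) →
  Fintype.card ι + (q + 1) * (2 * q + 1) ≤ Fintype.card β →
  ∀ f : chRep R (chR z (fun i => χ (e i))) ⟶ res (upG e z) (chRep R (chR (e z) χ)),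
    (∀ r : R, (f.hom r : R) = r) → groupHomology.map (upG e z) f q = 0

/-- N(F, z): automorphisms fixing z and acting trivially on the abelianization, as a subgroup of
Γ'(F, z) -/
def Nz {ι : Type} (z : ι) : Subgroup (Gp z) where
  carrier := {φ | ∀ g, expo z ((φ : MulAut (FreeGroup ι)) g) = expo z g}
  one_mem' := fun _ => rfl
  mul_mem' := fun {a b} ha hb g => by
    have h1 : ((a * b : Gp z) : MulAut (FreeGroup ι)) g =
      (a : MulAut (FreeGroup ι)) ((b : MulAut (FreeGroup ι)) g) := rfl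
    rw [h1, ha, hb]
  inv_mem' := fun {a} ha g => by
    have h := ha (((a : MulAut (FreeGroup ι))⁻¹ : MulAut (FreeGroup ι)) g)
    rw [MulAut.apply_inv_self] at h
    exact h.symm

theorem mem_Nz {ι : Type} {z : ι} {φ : Gp z} : φ ∈ Nz z ↔ ∀ g, eff z φ g = 0 := by
  constructor
  · intro h g; unfold eff; rw [h g, sub_self]
  · intro h g; exact Multiplicative.toAdd.injective (sub_eq_zero.1 (h g))

theorem eff_one {ι : Type} (z : ι) (g : FreeGroup ι) :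
    eff z ((1 : Gp z) : MulAut (FreeGroup ι)) g = 0 := sub_self _

theorem eff_inv {ι : Type} [Finite ι] (z : ι) (φ : Gp z) (g : FreeGroup ι) :
    eff z ((φ⁻¹ : Gp z) : MulAut (FreeGroup ι)) g = - eff z φ g := by
  have h := eff_mul z φ φ⁻¹ g
  rw [mul_inv_cancel, eff_one] at h
  omega

instance {ι : Type} [Finite ι] (z : ι) : (Nz z).Normal := ⟨by
  intro n hn g
  rw [mem_Nz] at hn ⊢
  intro x
  rw [eff_mul, eff_mul, eff_inv, hn x]
  ring⟩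

theorem upG_Nz {ι β : Type} [Finite ι] [Finite β] (e : ι ↪ β) (z : ι) (φ : Gp z) (h : φ ∈ Nz z) :
    upG e z φ ∈ Nz (e z) := by
  intro g
  have h2 : (expo (e z)).comp (upE e (φ : MulAut (FreeGroup ι))).toMonoidHom = expo (e z) := by
    refine fx fun b => ?_
    rw [MonoidHom.comp_apply]
    change expo (e z) (upE e _ (FreeGroup.of b)) = _
    by_cases hb : ∃ i, e i = b
    · obtain ⟨i, rfl⟩ := hb
      rw [← mof e, upE_map, expo_map, expo_map, h]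
    · rw [upE_new _ _ _ fun i hi => hb ⟨i, hi⟩]
  exact DFunLike.congr_fun h2 g

/-- stabilisation N(F, z) → N(F⁺, z) -/
noncomputable def upN {ι β : Type} [Finite ι] [Finite β] (e : ι ↪ β) (z : ι) :
    Nz z →* Nz (e z) :=
  ((upG e z).comp (Nz z).subtype).codRestrict (Nz (e z)) fun φ => upG_Nz e z _ φ.2

theorem upN_coe {ι β : Type} [Finite ι] [Finite β] (e : ι ↪ β) (z : ι) (φ : Nz z) :
    (upN e z φ : Gp (e z)) = upG e z (φ : Gp z) := rfl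

/-- T2L: the localised form. τ ∈ Γ'(F⁺, z) is x_i ↦ x_i z, all other letters fixed. -/
def T2L : Prop := ∀ (q : ℕ) (ι β : Type) [Fintype ι] [Fintype β] (e : ι ↪ β) (z i : ι), i ≠ z →
  Fintype.card ι + (q + 1) * (2 * q + 1) ≤ Fintype.card β →
  ∀ (τ : Gp (e z)), (τ : MulAut (FreeGroup β)) (FreeGroup.of (e i)) =
      FreeGroup.of (e i) * FreeGroup.of (e z) →
    (∀ b, b ≠ e i → (τ : MulAut (FreeGroup β)) (FreeGroup.of b) = FreeGroup.of b) →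
  ∀ (ψ : Rep.trivial ℚ (Nz z) ℚ ⟶ res (upN e z) (Rep.trivial ℚ (Nz (e z)) ℚ)),
    (∀ r : ℚ, (ψ.hom r : ℚ) = r) →
  ∀ x : groupHomology (Rep.trivial ℚ (Nz z) ℚ) q,
    ∃ m : ℕ, ((cR (Nz (e z)) q τ - 1) ^ m) ((groupHomology.map (upN e z) ψ q).hom x) = 0

end Pool.Agent.TST
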