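import Pool.Agent.Helper79_TOR.Act

/-! T2-STAB: PLN and PLP from HDS. -/

set_option autoImplicit false

namespace Pool.Agent.TST

open Pointwise Set Pool.Agent.TOR.H58

theorem pln (hH : HDS) : PLN := by
  intro ι δ E E' h g
  have hd' := hH ι δ
  by_cases hg : g ∈ (jn δ).range
  · obtain ⟨x, rfl⟩ := hg
    rw [← pl_smul hH]
    rcases h x with k | k | k | k
    · exact Or.inl fun y hy => k hy
    · exact Or.inr (Or.inl fun y hy => k hy)
    · exact Or.inr (Or.inr (Or.inl fun y hy => k hy))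
    · exact Or.inr (Or.inr (Or.inr fun y hy => k hy))
  · have key : ∀ u, hd u ≠ hd g → (u ∈ g • pl δ E ↔ hd g⁻¹ ∈ E) := by
      intro u hu
      rw [mem_smul_iff]
      change hd (g⁻¹ * u) ∈ E ↔ _
      rw [(hd'.dich g hg u).resolve_left hu]
    by_cases hb : hd g⁻¹ ∈ E
    · by_cases ha : hd g ∈ E'
      · refine Nst.symm (Or.inr (Or.inr (Or.inr fun u hu => ?_)))
        refine (key u fun h => ?_).2 hb
        refine hu ?_
        change hd u ∈ E'
        rw [h]; exact ha
      · refine Nst.symm (Or.inl fun u hu => ?_)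
        refine (key u fun h => ?_).2 hb
        refine ha ?_
        rw [← h]; exact hu
    · by_cases ha : hd g ∈ E'
      · refine Nst.symm (Or.inr (Or.inl fun u hu => ?_))
        by_contra hc
        refine hb ((key u fun h => ?_).1 hu)
        refine hc ?_
        change hd u ∈ E'
        rw [h]; exact ha
      · refine Nst.symm (Or.inr (Or.inr (Or.inl fun u hu hu' => ?_)))
        refine hb ((key u fun h => ?_).1 hu')
        refine ha ?_
        rw [← h]; exact hu

/-- two sets with the same coboundary on generators -/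
theorem eq_of_cob {F : Type} [Group F] (S : Set F) (hS : Subgroup.closure S = ⊤) (B B' : Set F)
    (h1 : (1 : F) ∈ B ↔ (1 : F) ∈ B')
    (h : ∀ u ∈ S, ∀ x, (x ∈ B ↔ x * u ∈ B) ↔ (x ∈ B' ↔ x * u ∈ B')) : B = B' := by
  let K : Subgroup F :=
    { carrier := {u | ∀ x, (x ∈ B ↔ x * u ∈ B) ↔ (x ∈ B' ↔ x * u ∈ B')}
      one_mem' := fun x => by rw [mul_one]; tauto
      mul_mem' := fun {a b} ha hb x => by
        have e1 := ha x
        have e2 := hb (x * a)
        rw [← mul_assoc]
        tauto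
      inv_mem' := fun {a} ha x => by
        have e1 := ha (x * a⁻¹)
        rw [inv_mul_cancel_right] at e1
        tauto }
  have hK : Subgroup.closure S ≤ K := (Subgroup.closure_le K).2 h
  ext x
  have h2 : x ∈ Subgroup.closure S := by rw [hS]; trivial
  have h3 := hK h2 1
  rw [one_mul] at h3
  by_cases e1 : (1 : F) ∈ B <;> by_cases e2 : x ∈ B <;> by_cases e3 : (1 : F) ∈ B' <;>
    by_cases e4 : x ∈ B' <;> simp_all

theorem plp (hH : HDS) : PLP := by
  intro ι δ E φ a b ha hb
  have hd' := hH ι δ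
  have hinj : ∀ x : FreeGroup ι, (φ x ∈ φ '' E ↔ x ∈ E) := fun x =>
    ⟨fun ⟨y, hy, hxy⟩ => by rwa [← φ.injective hxy], fun hx => ⟨x, hx, rfl⟩⟩
  have hran : ∀ g : FreeGroup (ι ⊕ δ), psi φ a b g ∈ (jn δ).range ↔ g ∈ (jn δ).range := by
    intro g
    constructor
    · rintro ⟨x, hx⟩
      refine ⟨φ⁻¹ x, ?_⟩
      refine (psi φ a b).injective ?_
      rw [psi_jn, MulAut.apply_inv_self, hx]
    · rintro ⟨x, rfl⟩
      exact ⟨φ x, (psi_jn φ a b x).symm⟩
  have key : {g : FreeGroup (ι ⊕ δ) | psi φ a b g ∈ pl δ (φ '' E)} = pl δ E := by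
    refine eq_of_cob _ (FreeGroup.closure_range_of _) _ _ ?_ ?_
    · change hd (psi φ a b 1) ∈ φ '' E ↔ hd (1 : FreeGroup (ι ⊕ δ)) ∈ E
      rw [map_one]
      have h0 : hd (1 : FreeGroup (ι ⊕ δ)) = 1 := by
        have := hd'.old 1
        rwa [map_one] at this
      rw [h0]
      have := hinj 1
      rwa [map_one] at this
    · rintro _ ⟨l, rfl⟩ x
      change (hd (psi φ a b x) ∈ φ '' E ↔ hd (psi φ a b (x * FreeGroup.of l)) ∈ φ '' E) ↔
        (hd x ∈ E ↔ hd (x * FreeGroup.of l) ∈ E)
      rw [map_mul]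
      rcases l with i | d
      · have h1 : (FreeGroup.of (Sum.inl i : ι ⊕ δ)) = jn δ (FreeGroup.of i) := (mof _ _).symm
        rw [h1, psi_jn]
        by_cases hx : x ∈ (jn δ).range
        · obtain ⟨y, rfl⟩ := hx
          have e1 : psi φ a b (jn δ y) * jn δ (φ (FreeGroup.of i)) =
              jn δ (φ (y * FreeGroup.of i)) := by rw [psi_jn, map_mul, map_mul]
          have e2 : jn δ y * jn δ (FreeGroup.of i) = jn δ (y * FreeGroup.of i) := by rw [map_mul]
          rw [e1, e2, psi_jn, hd'.old, hd'.old, hd'.old, hd'.old, hinj, hinj]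
        · rw [hd'.right x _ hx, hd'.right _ _ fun k => hx ((hran x).1 k)]
          tauto
      · rw [hd'.new, psi_t, ← mul_assoc, ← mul_assoc]
        have e1 : (hd (psi φ a b x * jn δ (a d) * FreeGroup.of (Sum.inr d) * jn δ (b d)) ∈ φ '' E ↔
            hd (psi φ a b x) ∈ φ '' E) := by
          refine (jn_RSt hH (hb d) _).trans ?_
          refine (t_RSt hH _ d _).trans ?_
          exact jn_RSt hH (ha d) _
        rw [e1]
        tauto
  ext g
  constructor
  · rintro ⟨x, hx, rfl⟩
    rw [← key] at hx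
    exact hx
  · intro hg
    obtain ⟨x, rfl⟩ := (psi φ a b).surjective g
    exact ⟨x, by rw [← key]; exact hg, rfl⟩

end Pool.Agent.TST
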