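import Pool.Agent.Helper79_TOR.T2n
import Pool.Agent.Helper79_TOR.Pln
import Pool.Agent.Helper76_TOR.Adp
import Pool.Agent.Helper63_TOR.Xex
import Pool.Agent.Helper40_TOR.Hds
import Pool.Agent.Helper4_TOR.Pla
import Pool.Agent.Helper41_TOR.Ts
import Pool.Agent.Helper41_TOR.T2
import Pool.Agent.Helper57_TOR.Cre
import Pool.Agent.Helper58_TOR.Fl3
import Pool.Agent.Helper81_TOR.Kll
import Pool.Agent.Helper90_TOR.Zer
import Pool.Agent.Helper39_TOR.Zab
import Pool.Agent.Helper39_TOR.Zst
import Pool.Agent.Helper27_TOR.T2l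

/-! T2-STAB: final assembly. -/

set_option autoImplicit false

namespace Pool.Agent.TST

/-- the stabilisation theorem -/
theorem t2s_final : T2S := by
  have hH : HDS := H40.hds
  have hA : PLA := H4.pla hH
  have hL : PLL := H4.pll hH
  have hN : PLN := pln hH
  have hP : PLP := plp hH
  have hI : IOH := H81.ioh hH hP
  have hK : KLL := H81.kll hH Pool.Agent.TOR.H76.sld Pool.Agent.TOR.H76.str hA hN hP hL H41.kab
  have hZ : ZST := H39.zst Pool.Agent.TOR.H76.leg Pool.Agent.TOR.H76.gam hK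
    (H90.zer hI H39.zab) Pool.Agent.TOR.H57.cre hI
  exact H41.t2s H41.lad hZ (H63.xex H63.flq Pool.Agent.TOR.H58.fl3) hH hA hN hP

theorem t2l_final : T2L := H27.t2l t2s_final H41.toz

theorem t2n_final : T2N := t2n t2l_final

end Pool.Agent.TST
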