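import Mathlib

/-! The centraliser of a letter in a free group. -/

set_option autoImplicit false

namespace Pool.Agent.TOW.H79

open FreeGroup

variable {α : Type} [DecidableEq α]

/-- word of a letter times an element -/
theorem tw_cons (s : α × Bool) (u : FreeGroup α)
    (h : ∀ t l, u.toWord = t :: l → t ≠ (s.1, !s.2)) :
    (FreeGroup.mk [s] * u).toWord = s :: u.toWord := by
  rw [toWord_mul, toWord_mk, reduce_singleton, List.singleton_append]
  apply IsReduced.reduce_eq
  have hr : IsReduced u.toWord := isReduced_toWord
  rcases hu : u.toWord with _ | ⟨t, l⟩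
  · exact IsReduced.singleton
  · rw [hu] at hr
    refine isReduced_cons_cons.2 ⟨fun h1 => ?_, hr⟩
    have h2 := h t l hu
    by_contra h3
    apply h2
    refine Prod.ext h1.symm ?_
    show t.2 = !s.2
    revert h3
    cases s.2 <;> cases t.2 <;> simp

/-- the centraliser of a letter -/
theorem cen_of (a : α) : ∀ (n : ℕ) (u : FreeGroup α), u.norm ≤ n →
    u * of a = of a * u → ∃ k : ℤ, u = of a ^ k := by
  intro n
  induction n with
  | zero =>
    intro u hu _
    exact ⟨0, by rw [zpow_zero]; exact norm_eq_zero.1 (Nat.le_zero.1 hu)⟩
  | succ n ih =>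
    intro u hu hc
    rcases hw : u.toWord with _ | ⟨t, l⟩
    · exact ⟨0, by rw [zpow_zero]; exact toWord_eq_nil_iff.1 hw⟩
    have hstrip : ∀ s : Bool, t = (a, s) → ∃ k : ℤ, u = of a ^ k := by
      intro s hs
      let v : FreeGroup α := FreeGroup.mk l
      have hl : IsReduced l := by
        have hr : IsReduced u.toWord := isReduced_toWord
        rw [hw] at hr
        exact hr.tail
      have hv : u = FreeGroup.mk [(a, s)] * v := by
        rw [mul_mk, List.singleton_append, ← hs, ← hw, mk_toWord]
      have hvn : v.norm ≤ n := by
        have h1 : v.toWord = l := by rw [toWord_mk]; exact hl.reduce_eq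
        have h2 : u.norm = l.length + 1 := by
          show u.toWord.length = _
          rw [hw]; rfl
        have h3 : v.norm = l.length := by
          show v.toWord.length = _
          rw [h1]
        omega
      have hcs : FreeGroup.mk [(a, s)] = of a ^ (if s then 1 else -1 : ℤ) := by
        cases s
        · show _ = of a ^ (-1 : ℤ)
          rw [zpow_neg_one]; rfl
        · show _ = of a ^ (1 : ℤ)
          rw [zpow_one]; rfl
      rw [hcs] at hv
      have hcv : v * of a = of a * v := by
        have e : v = of a ^ (-(if s then 1 else -1 : ℤ)) * u := by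
          rw [hv, ← mul_assoc, ← zpow_add, neg_add_cancel, zpow_zero, one_mul]
        rw [e, mul_assoc, hc, ← mul_assoc, ← mul_assoc]
        congr 1
        rw [← zpow_add_one, ← zpow_one_add, add_comm]
      obtain ⟨k, hk⟩ := ih v hvn hcv
      exact ⟨(if s then 1 else -1 : ℤ) + k, by rw [hv, hk, zpow_add]⟩
    by_cases h1 : t = (a, true)
    · exact hstrip true h1
    by_cases h2 : t = (a, false)
    · exact hstrip false h2
    exfalso
    -- the word of a u begins with a
    have e1 : (of a * u).toWord = (a, true) :: u.toWord := by
      refine tw_cons (a, true) u fun t' l' h' => ?_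
      rw [hw] at h'
      obtain ⟨h3, -⟩ := List.cons.inj h'
      rw [← h3]
      exact h2
    have e2 : (u * of a).toWord = u.toWord ++ [(a, true)] := by
      have hs : (u * of a).toWord.Sublist (u.toWord ++ (of a).toWord) := toWord_mul_sublist u (of a)
      rw [toWord_of] at hs
      refine hs.eq_of_length ?_
      rw [hc, e1, List.length_cons, List.length_append, List.length_singleton]
    rw [hc, e1, hw] at e2
    have e3 : (a, true) = t := (List.cons.inj e2).1
    exact h1 e3.symm

theorem cen_letter (a : α) {u : FreeGroup α} (h : u * of a * u⁻¹ = of a) :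
    ∃ k : ℤ, u = of a ^ k :=
  cen_of a u.norm u le_rfl (by rw [← mul_inv_eq_iff_eq_mul]; exact h)

end Pool.Agent.TOW.H79
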