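import Mathlib
import Pool.Agent.Helper76_TOR.TwX
import Pool.Agent.Helper29_TOR.If3
import Pool.Agent.Helper79_TOR.Cen

/-! TOW, section 8b: framings of the holes, the subgroup G^L and its map to the mapping class group
of the closed-up surface. -/

set_option autoImplicit false
set_option linter.unusedSectionVars false

namespace Pool.Agent.TOW.H79

open FreeGroup Pool.Agent.TOW Pool.Agent.TST Pool.Agent.TOR.H29

section
variable {α η : Type} [DecidableEq α]

/-- the class is supported on the holes -/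
def Xc (hl : η → α) (e : α → ℤ) : Prop := ∀ a, (∀ h, hl h ≠ a) → e a = 0

/-- the class is supported on b and the holes -/
def Vc (hl : η → α) (b : α) (e : α → ℤ) : Prop := ∀ a, a ≠ b → (∀ h, hl h ≠ a) → e a = 0

theorem Xc.zero {hl : η → α} : Xc hl (0 : α → ℤ) := fun _ _ => rfl

theorem Xc.add {hl : η → α} {e f : α → ℤ} (he : Xc hl e) (hf : Xc hl f) : Xc hl (e + f) :=
  fun a ha => by rw [Pi.add_apply, he a ha, hf a ha, add_zero]

theorem Xc.neg {hl : η → α} {e : α → ℤ} (he : Xc hl e) : Xc hl (-e) :=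
  fun a ha => by rw [Pi.neg_apply, he a ha, neg_zero]

theorem Xc.sub {hl : η → α} {e f : α → ℤ} (he : Xc hl e) (hf : Xc hl f) : Xc hl (e - f) := by
  rw [sub_eq_add_neg]; exact he.add hf.neg

theorem ev_conj (c u : FreeGroup α) : ev (c * u * c⁻¹) = ev u := by
  rw [ev_mul, ev_mul, ev_inv]; abel

theorem ev_zpow (c : FreeGroup α) (k : ℤ) : ev (c ^ k) = k • ev c := by
  unfold ev; rw [map_zpow, toAdd_zpow]

/-- it suffices to look at the letters -/
theorem Xc_letters {hl : η → α} (f : FreeGroup α →* FreeGroup α)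
    (h : ∀ l, Xc hl (ev (f (of l)) - ev (of l))) (u : FreeGroup α) : Xc hl (ev (f u) - ev u) := by
  induction u using FreeGroup.induction_on with
  | C1 => rw [_root_.map_one, sub_self]; exact Xc.zero
  | of l => exact h l
  | inv_of l hl' =>
    rw [_root_.map_inv, ev_inv, ev_inv, neg_sub_neg, ← neg_sub]
    exact hl'.neg
  | mul x y hx hy =>
    rw [_root_.map_mul, ev_mul, ev_mul, add_sub_add_comm]
    exact hx.add hy

/-- mapping classes acting trivially on homology modulo the holes -/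
def Gx (hl : η → α) (w : FreeGroup α) : Subgroup (MulAut (FreeGroup α)) where
  carrier := {φ | φ ∈ Md hl w ∧ ∀ u, Xc hl (ev (φ u) - ev u)}
  one_mem' := ⟨one_mem _, fun u => by
    rw [MulAut.one_apply, sub_self]; exact Xc.zero⟩
  mul_mem' := by
    rintro φ ψ ⟨h1, h2⟩ ⟨h3, h4⟩
    refine ⟨mul_mem h1 h3, fun u => ?_⟩
    have h := (h2 (ψ u)).add (h4 u)
    rw [sub_add_sub_cancel] at h
    exact h
  inv_mem' := by
    rintro φ ⟨h1, h2⟩
    refine ⟨inv_mem h1, fun u => ?_⟩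
    have h := (h2 (φ⁻¹ u)).neg
    rw [neg_sub, MulAut.apply_inv_self] at h
    exact h

theorem mem_Gx {hl : η → α} {w : FreeGroup α} {φ : MulAut (FreeGroup α)} :
    φ ∈ Gx hl w ↔ φ ∈ Md hl w ∧ ∀ u, Xc hl (ev (φ u) - ev u) := Iff.rfl

/-- the homology class of the image of a hole -/
theorem ev_hole {hl : η → α} {w : FreeGroup α} {φ : MulAut (FreeGroup α)} (hφ : φ ∈ Md hl w)
    (h : η) : ev (φ (of (hl h))) = ev (of (hl h)) := by
  obtain ⟨c, hc⟩ := hφ.2 h
  rw [hc, ev_conj]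

variable [Fintype α]

/-- linearity -/
theorem ev_lin (f : FreeGroup α →* FreeGroup α) (u : FreeGroup α) :
    ev (f u) = ∑ l, ev u l • ev (f (of l)) := by
  induction u using FreeGroup.induction_on with
  | C1 => simp [ev_one]
  | of l =>
    rw [ev_of, Finset.sum_eq_single l]
    · rw [Pi.single_eq_same, one_smul]
    · intro m _ hm
      rw [Pi.single_eq_of_ne hm, zero_smul]
    · intro h; exact absurd (Finset.mem_univ _) h
  | inv_of l hl =>
    rw [_root_.map_inv, ev_inv, hl, ev_inv, ← Finset.sum_neg_distrib]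
    refine Finset.sum_congr rfl fun m _ => ?_
    rw [Pi.neg_apply, neg_smul]
  | mul x y hx hy =>
    rw [_root_.map_mul, ev_mul, hx, hy, ev_mul, ← Finset.sum_add_distrib]
    refine Finset.sum_congr rfl fun m _ => ?_
    rw [Pi.add_apply, add_smul]

theorem ev_congr (φ : MulAut (FreeGroup α)) {u v : FreeGroup α} (h : ev u = ev v) :
    ev (φ u) = ev (φ v) := by
  have h1 := ev_lin φ.toMonoidHom u
  have h2 := ev_lin φ.toMonoidHom v
  rw [h] at h1
  exact h1.trans h2.symm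

/-- mapping classes fixing the class of b fix all classes supported on b and the holes -/
theorem ev_fix {hl : η → α} {w : FreeGroup α} {b : α} {φ : MulAut (FreeGroup α)}
    (hφ : φ ∈ Md hl w) (hb : ev (φ (of b)) = ev (of b)) {u : FreeGroup α} (hu : Vc hl b (ev u)) :
    ev (φ u) = ev u := by
  have h1 : ev (φ u) = ∑ l, ev u l • ev (φ (of l)) := ev_lin φ.toMonoidHom u
  have h2 : ev u = ∑ l, ev u l • ev (of l) := ev_lin (MonoidHom.id _) u
  rw [h1]
  conv_rhs => rw [h2]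
  refine Finset.sum_congr rfl fun l _ => ?_
  by_cases h3 : l = b
  · rw [h3, hb]
  by_cases h4 : ∃ h, hl h = l
  · obtain ⟨h, rfl⟩ := h4
    rw [ev_hole hφ]
  · push Not at h4
    rw [hu l h3 h4, zero_smul, zero_smul]

/-- the subgroup G^L -/
def Glx (hl : η → α) (w : FreeGroup α) (b : α) : Subgroup (MulAut (FreeGroup α)) where
  carrier := {φ | φ ∈ Gx hl w ∧ ev (φ (of b)) = ev (of b) ∧
    ∀ h, ∃ c, φ (of (hl h)) = c * of (hl h) * c⁻¹ ∧ Vc hl b (ev c)}
  one_mem' := ⟨one_mem _, rfl, fun h => ⟨1, by simp, fun _ _ _ => by rw [ev_one]; rfl⟩⟩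
  mul_mem' := by
    rintro φ ψ ⟨h1, h2, h3⟩ ⟨h4, h5, h6⟩
    refine ⟨mul_mem h1 h4, ?_, fun h => ?_⟩
    · rw [MulAut.mul_apply, ev_congr φ h5, h2]
    · obtain ⟨c, hc, hc'⟩ := h3 h
      obtain ⟨d, hd, hd'⟩ := h6 h
      refine ⟨φ d * c, ?_, ?_⟩
      · rw [MulAut.mul_apply, hd, _root_.map_mul, _root_.map_mul, _root_.map_inv, hc]
        group
      · rw [ev_mul, ev_fix h1.1 h2 hd']
        intro a h7 h8
        rw [Pi.add_apply, hc' a h7 h8, hd' a h7 h8, add_zero]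
  inv_mem' := by
    rintro φ ⟨h1, h2, h3⟩
    have h4 : φ⁻¹ ∈ Gx hl w := inv_mem h1
    refine ⟨h4, ?_, fun h => ?_⟩
    · have h5 : Vc hl b (ev (φ⁻¹ (of b))) := by
        intro a h7 h8
        have h6 := h4.2 (of b) a h8
        rw [Pi.sub_apply, ev_of, Pi.single_eq_of_ne h7, sub_zero] at h6
        exact h6
      have h6 := ev_fix h1.1 h2 h5
      rw [MulAut.apply_inv_self] at h6
      exact h6.symm
    · obtain ⟨c, hc, hc'⟩ := h3 h
      refine ⟨(φ⁻¹ c)⁻¹, ?_, ?_⟩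
      · have h5 : FreeGroup.of (hl h) = φ⁻¹ c * φ⁻¹ (FreeGroup.of (hl h)) * (φ⁻¹ c)⁻¹ := by
          rw [← _root_.map_inv, ← _root_.map_mul, ← _root_.map_mul, ← hc]
          exact (MulAut.inv_apply_self _ _ _).symm
        conv_rhs => rw [h5]
        group
      · intro a h7 h8
        have h6 := h4.2 c a h8
        rw [Pi.sub_apply, hc' a h7 h8, sub_zero] at h6
        rw [ev_inv, Pi.neg_apply, h6, neg_zero]

theorem mem_Glx {hl : η → α} {w : FreeGroup α} {b : α} {φ : MulAut (FreeGroup α)} :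
    φ ∈ Glx hl w b ↔ φ ∈ Gx hl w ∧ ev (φ (of b)) = ev (of b) ∧
      ∀ h, ∃ c, φ (of (hl h)) = c * of (hl h) * c⁻¹ ∧ Vc hl b (ev c) := Iff.rfl

/-- the framing of a conjugate -/
theorem conj_fr {hl : η → α} {w : FreeGroup α} {φ ψ : MulAut (FreeGroup α)}
    (h1 : φ ∈ Gx hl w) (hψ : ψ ∈ Gx hl w) {h : η} {c : FreeGroup α}
    (hc : φ (of (hl h)) = c * of (hl h) * c⁻¹) :
    ∃ c', (ψ * φ * ψ⁻¹) (of (hl h)) = c' * of (hl h) * c'⁻¹ ∧ Xc hl (ev c' - ev c) := by
  obtain ⟨d, hd⟩ := (inv_mem hψ.1 : ψ⁻¹ ∈ Md hl w).2 h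
  have h5 : ψ (of (hl h)) = (ψ d)⁻¹ * of (hl h) * ψ d := by
    have h6 : FreeGroup.of (hl h) = ψ d * ψ (FreeGroup.of (hl h)) * (ψ d)⁻¹ := by
      rw [← _root_.map_inv, ← _root_.map_mul, ← _root_.map_mul, ← hd]
      exact (MulAut.apply_inv_self _ _ _).symm
    conv_rhs => rw [h6]
    group
  refine ⟨ψ (φ d) * ψ c * (ψ d)⁻¹, ?_, ?_⟩
  · rw [MulAut.mul_apply, MulAut.mul_apply, hd]
    simp only [_root_.map_mul, _root_.map_inv, hc, h5]
    group
  · rw [ev_mul, ev_mul, ev_inv]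
    have e1 := hψ.2 (φ d)
    have e2 := h1.2 d
    have e3 := hψ.2 d
    have e4 := hψ.2 c
    have e : ev (ψ (φ d)) + ev (ψ c) + -ev (ψ d) - ev c =
        (ev (ψ (φ d)) - ev (φ d)) + (ev (φ d) - ev d) - (ev (ψ d) - ev d) + (ev (ψ c) - ev c) := by
      abel
    rw [e]
    exact ((e1.add e2).sub e3).add e4

theorem Glx_conj {hl : η → α} {w : FreeGroup α} {b : α} {φ ψ : MulAut (FreeGroup α)}
    (hφ : φ ∈ Glx hl w b) (hψ : ψ ∈ Gx hl w) : ψ * φ * ψ⁻¹ ∈ Glx hl w b := by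
  obtain ⟨h1, h2, h3⟩ := hφ
  have h4 : ψ⁻¹ ∈ Gx hl w := inv_mem hψ
  refine ⟨mul_mem (mul_mem hψ h1) h4, ?_, fun h => ?_⟩
  · have h5 : Vc hl b (ev (ψ⁻¹ (of b))) := by
      intro a h7 h8
      have h6 := h4.2 (of b) a h8
      rw [Pi.sub_apply, ev_of, Pi.single_eq_of_ne h7, sub_zero] at h6
      exact h6
    have h6 := ev_congr ψ (ev_fix h1.1 h2 h5)
    rw [MulAut.apply_inv_self] at h6
    exact h6
  · obtain ⟨c, hc, hc'⟩ := h3 h
    obtain ⟨c', h5, h6⟩ := conj_fr h1 hψ hc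
    refine ⟨c', h5, fun a h7 h8 => ?_⟩
    have h9 := h6 a h8
    rw [Pi.sub_apply, hc' a h7 h8, sub_zero] at h9
    exact h9

/-! ### framings -/

theorem fr_uniq {x : α} {c d : FreeGroup α} (h : c * of x * c⁻¹ = d * of x * d⁻¹)
    (h' : ev c x = ev d x) : c = d := by
  have h1 : (d⁻¹ * c) * of x * (d⁻¹ * c)⁻¹ = of x := by
    have : (d⁻¹ * c) * of x * (d⁻¹ * c)⁻¹ = d⁻¹ * (c * of x * c⁻¹) * d := by group
    rw [this, h]
    group
  obtain ⟨k, hk⟩ := cen_letter x h1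
  have h2 := congrArg (fun u => ev u x) hk
  rw [ev_mul, ev_inv, ev_zpow, Pi.add_apply, Pi.neg_apply, h', Pi.smul_apply, ev_of,
    Pi.single_eq_same, neg_add_cancel] at h2
  have hk0 : k = 0 := by
    have : k • (1 : ℤ) = k := by simp
    omega
  rw [hk0, zpow_zero] at hk
  exact (inv_mul_eq_one.1 hk).symm

open Classical in
/-- the framing with exponent 0 -/
noncomputable def fr (hl : η → α) (φ : MulAut (FreeGroup α)) (h : η) : FreeGroup α :=
  if H : ∃ c, φ (of (hl h)) = c * of (hl h) * c⁻¹ ∧ ev c (hl h) = 0 then H.choose else 1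

theorem fr_eq {hl : η → α} {φ : MulAut (FreeGroup α)} {h : η} {c : FreeGroup α}
    (h1 : φ (of (hl h)) = c * of (hl h) * c⁻¹) (h2 : ev c (hl h) = 0) : fr hl φ h = c := by
  have H : ∃ c, φ (of (hl h)) = c * of (hl h) * c⁻¹ ∧ ev c (hl h) = 0 := ⟨c, h1, h2⟩
  unfold fr
  rw [dif_pos H]
  obtain ⟨h3, h4⟩ := H.choose_spec
  exact fr_uniq (h3.symm.trans h1) (h4.trans h2.symm)

/-- normalisation -/
theorem fr_of {hl : η → α} {φ : MulAut (FreeGroup α)} {h : η} {c : FreeGroup α}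
    (h1 : φ (of (hl h)) = c * of (hl h) * c⁻¹) :
    fr hl φ h = c * of (hl h) ^ (-ev c (hl h)) := by
  refine fr_eq ?_ ?_
  · rw [h1, mul_inv_rev]
    have : of (hl h) ^ (-ev c (hl h)) * of (hl h) * (of (hl h) ^ (-ev c (hl h)))⁻¹ = of (hl h) := by
      group
    calc c * of (hl h) * c⁻¹ =
        c * (of (hl h) ^ (-ev c (hl h)) * of (hl h) * (of (hl h) ^ (-ev c (hl h)))⁻¹) * c⁻¹ := by
          rw [this]
      _ = _ := by group
  · rw [ev_mul, ev_zpow, ev_of, Pi.add_apply, Pi.smul_apply, Pi.single_eq_same]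
    simp

theorem fr_spec {hl : η → α} {w : FreeGroup α} {φ : MulAut (FreeGroup α)} (hφ : φ ∈ Md hl w)
    (h : η) : φ (of (hl h)) = fr hl φ h * of (hl h) * (fr hl φ h)⁻¹ ∧ ev (fr hl φ h) (hl h) = 0 := by
  obtain ⟨c, hc⟩ := hφ.2 h
  have H : ∃ c, φ (of (hl h)) = c * of (hl h) * c⁻¹ ∧ ev c (hl h) = 0 := by
    refine ⟨c * of (hl h) ^ (-ev c (hl h)), ?_, ?_⟩
    · rw [hc, mul_inv_rev]
      have : of (hl h) ^ (-ev c (hl h)) * of (hl h) * (of (hl h) ^ (-ev c (hl h)))⁻¹ =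
        of (hl h) := by group
      calc c * of (hl h) * c⁻¹ =
          c * (of (hl h) ^ (-ev c (hl h)) * of (hl h) * (of (hl h) ^ (-ev c (hl h)))⁻¹) * c⁻¹ := by
            rw [this]
        _ = _ := by group
    · rw [ev_mul, ev_zpow, ev_of, Pi.add_apply, Pi.smul_apply, Pi.single_eq_same]
      simp
  unfold fr
  rw [dif_pos H]
  exact H.choose_spec

/-- the coefficient outside the holes does not depend on the framing -/
theorem fr_coeff {hl : η → α} {φ : MulAut (FreeGroup α)} {h : η} {c : FreeGroup α}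
    (h1 : φ (of (hl h)) = c * of (hl h) * c⁻¹) {a : α} (ha : hl h ≠ a) :
    ev (fr hl φ h) a = ev c a := by
  rw [fr_of h1, ev_mul, ev_zpow, ev_of, Pi.add_apply, Pi.smul_apply,
    Pi.single_eq_of_ne (Ne.symm ha), smul_zero, add_zero]

theorem fr_Vc {hl : η → α} {w : FreeGroup α} {b : α} {φ : MulAut (FreeGroup α)}
    (hφ : φ ∈ Glx hl w b) (h : η) : Vc hl b (ev (fr hl φ h)) := by
  obtain ⟨c, hc, hc'⟩ := hφ.2.2 h
  intro a h1 h2
  rw [fr_coeff hc (h2 h), hc' a h1 h2]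

theorem fr_one {hl : η → α} {φ : MulAut (FreeGroup α)} {h : η}
    (h1 : φ (of (hl h)) = of (hl h)) : fr hl φ h = 1 :=
  fr_eq (by rw [h1]; simp) (by rw [ev_one]; rfl)

theorem fr_mul {hl : η → α} {w : FreeGroup α} {b : α} {φ ψ : MulAut (FreeGroup α)}
    (hφ : φ ∈ Glx hl w b) (hψ : ψ ∈ Glx hl w b) (h : η) :
    fr hl (φ * ψ) h = φ (fr hl ψ h) * fr hl φ h := by
  obtain ⟨h1, h2⟩ := fr_spec hφ.1.1 h
  obtain ⟨h3, h4⟩ := fr_spec hψ.1.1 h
  refine fr_eq ?_ ?_
  · rw [MulAut.mul_apply, h3, _root_.map_mul, _root_.map_mul, _root_.map_inv, h1]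
    group
  · rw [ev_mul, Pi.add_apply, h2, add_zero, ev_fix hφ.1.1 hφ.2.1 (fr_Vc hψ h), h4]

/-- the map to the mapping class group of the closed-up surface -/
noncomputable def sG (hl : η → α) (w : FreeGroup α) (b : α) :
    Glx hl w b →* MulAut (FreeGroup (α ⊕ η)) where
  toFun φ := psi (φ : MulAut (FreeGroup α)) (fun _ => 1) (fun h => (fr hl φ h)⁻¹)
  map_one' := by
    have h : ∀ h, fr hl (1 : MulAut (FreeGroup α)) h = (1 : FreeGroup α) := fun h => fr_one rfl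
    refine MulEquiv.toMonoidHom_injective (fx fun l => ?_)
    rcases l with l | l
    · change psi (1 : MulAut (FreeGroup α)) _ _ (of (Sum.inl l)) = of (Sum.inl l)
      have h1 : (of (Sum.inl l) : FreeGroup (α ⊕ η)) = jn η (of l) := by rw [mof]
      rw [h1, psi_jn]; rfl
    · change psi (1 : MulAut (FreeGroup α)) _ _ (of (Sum.inr l)) = of (Sum.inr l)
      rw [psi_t]
      change jn η 1 * of (Sum.inr l) * jn η (fr hl 1 l)⁻¹ = _
      rw [h, inv_one, _root_.map_one]; simp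
  map_mul' φ ψ := by
    rw [psi_mul]
    change psi ((φ : MulAut (FreeGroup α)) * (ψ : MulAut (FreeGroup α))) _ _ = _
    congr 1
    · funext h
      rw [_root_.map_one, one_mul]
    · funext h
      change (fr hl ((φ : MulAut (FreeGroup α)) * (ψ : MulAut (FreeGroup α))) h)⁻¹ = _
      rw [fr_mul φ.2 ψ.2, mul_inv_rev, _root_.map_inv]

theorem sG_jn {hl : η → α} {w : FreeGroup α} {b : α} (φ : Glx hl w b) (u : FreeGroup α) :
    sG hl w b φ (jn η u) = jn η ((φ : MulAut (FreeGroup α)) u) := psi_jn _ _ _ _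

theorem sG_y {hl : η → α} {w : FreeGroup α} {b : α} (φ : Glx hl w b) (h : η) :
    sG hl w b φ (of (Sum.inr h)) = of (Sum.inr h) * (jn η (fr hl φ h))⁻¹ := by
  change psi _ _ _ _ = _
  rw [psi_t, _root_.map_one, one_mul, _root_.map_inv]

theorem sG_zh {hl : η → α} {w : FreeGroup α} {b : α} (φ : Glx hl w b) (h : η) :
    sG hl w b φ (zh hl h) = zh hl h := by
  unfold zh
  have h1 : (of (Sum.inl (hl h)) : FreeGroup (α ⊕ η)) = jn η (of (hl h)) := by rw [mof]
  rw [_root_.map_mul, _root_.map_mul, _root_.map_inv, _root_.map_inv, sG_y, h1, sG_jn,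
    (fr_spec φ.2.1.1 h).1]
  simp only [_root_.map_mul, _root_.map_inv]
  group

theorem sG_fix {hl : η → α} {w : FreeGroup α} {b : α} (φ : Glx hl w b) {zz : FreeGroup (α ⊕ η)}
    (hzz : zz ∈ Subgroup.closure (Set.range (zh hl))) :
    sG hl w b φ (zz * jn η w) = zz * jn η w :=
  ext_z hzz φ.2.1.1.1 (sG_jn φ) (sG_zh φ)

/-- the coefficient of b in the framing -/
noncomputable def cb (hl : η → α) (b : α) (φ : MulAut (FreeGroup α)) (h : η) : ℤ :=
  ev (fr hl φ h) b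

theorem cb_eq {hl : η → α} {b : α} (hb : ∀ h, hl h ≠ b) {φ : MulAut (FreeGroup α)} {h : η}
    {c : FreeGroup α} (h1 : φ (of (hl h)) = c * of (hl h) * c⁻¹) : cb hl b φ h = ev c b :=
  fr_coeff h1 (hb h)

theorem cb_conj {hl : η → α} {w : FreeGroup α} {b : α} (hb : ∀ h, hl h ≠ b)
    {φ ψ : MulAut (FreeGroup α)} (hφ : φ ∈ Gx hl w) (hψ : ψ ∈ Gx hl w) (h : η) :
    cb hl b (ψ * φ * ψ⁻¹) h = cb hl b φ h := by
  obtain ⟨c, hc⟩ := hφ.1.2 h
  obtain ⟨c', h1, h2⟩ := conj_fr hφ hψ hc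
  rw [cb_eq hb h1, cb_eq hb hc]
  have h3 := h2 b hb
  rw [Pi.sub_apply] at h3
  omega

/-! ### action on homology -/

variable [DecidableEq η]

theorem ev_jn_inl (u : FreeGroup α) (a : α) : ev (jn η u) (Sum.inl a) = ev u a := by
  induction u using FreeGroup.induction_on with
  | C1 => rw [_root_.map_one, ev_one, ev_one]; rfl
  | of l =>
    rw [mof, ev_of, ev_of]
    by_cases h : a = l
    · rw [h, Pi.single_eq_same, Pi.single_eq_same]
    · rw [Pi.single_eq_of_ne h, Pi.single_eq_of_ne (fun e => h (Sum.inl_injective e))]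
  | inv_of l h => rw [_root_.map_inv, ev_inv, ev_inv, Pi.neg_apply, Pi.neg_apply, h]
  | mul x y hx hy => rw [_root_.map_mul, ev_mul, ev_mul, Pi.add_apply, Pi.add_apply, hx, hy]

theorem ev_jn_inr (u : FreeGroup α) (h : η) : ev (jn η u) (Sum.inr h) = 0 := by
  induction u using FreeGroup.induction_on with
  | C1 => rw [_root_.map_one, ev_one]; rfl
  | of l => rw [mof, ev_of, Pi.single_eq_of_ne (by simp)]
  | inv_of l h' => rw [_root_.map_inv, ev_inv, Pi.neg_apply, h', neg_zero]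
  | mul x y hx hy => rw [_root_.map_mul, ev_mul, Pi.add_apply, hx, hy, add_zero]

theorem ev_jn_congr {u v : FreeGroup α} (h : ev u = ev v) : ev (jn η u) = ev (jn η v) := by
  funext o
  rcases o with a | k
  · rw [ev_jn_inl, ev_jn_inl, h]
  · rw [ev_jn_inr, ev_jn_inr]

/-- b is fixed -/
theorem sG_ev_b {hl : η → α} {w : FreeGroup α} {b : α} (φ : Glx hl w b) :
    ev (sG hl w b φ (of (Sum.inl b))) = ev (of (Sum.inl b) : FreeGroup (α ⊕ η)) := by
  have h1 : (of (Sum.inl b) : FreeGroup (α ⊕ η)) = jn η (of b) := by rw [mof]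
  rw [h1, sG_jn]
  exact ev_jn_congr φ.2.2.1

/-- the holes are fixed -/
theorem sG_ev_x {hl : η → α} {w : FreeGroup α} {b : α} (φ : Glx hl w b) (h : η) :
    ev (sG hl w b φ (of (Sum.inl (hl h)))) = ev (of (Sum.inl (hl h)) : FreeGroup (α ⊕ η)) := by
  have h1 : (of (Sum.inl (hl h)) : FreeGroup (α ⊕ η)) = jn η (of (hl h)) := by rw [mof]
  rw [h1, sG_jn]
  exact ev_jn_congr (ev_hole φ.2.1.1 h)

/-- letters of the surface: the change is supported on the holes -/
theorem sG_ev_u {hl : η → α} {w : FreeGroup α} {b : α} (φ : Glx hl w b) (u : FreeGroup α) :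
    Xc (fun h => Sum.inl (hl h)) (ev (sG hl w b φ (jn η u)) - ev (jn η u)) := by
  rw [sG_jn]
  rintro (a | k) ho
  · rw [Pi.sub_apply, ev_jn_inl, ev_jn_inl]
    exact φ.2.1.2 u a fun h e => ho h (congrArg Sum.inl e)
  · rw [Pi.sub_apply, ev_jn_inr, ev_jn_inr, sub_zero]

/-- the new letters -/
theorem sG_ev_y {hl : η → α} {w : FreeGroup α} {b : α} (hb : ∀ h, hl h ≠ b) (φ : Glx hl w b)
    (h : η) : Xc (fun h => Sum.inl (hl h)) (ev (sG hl w b φ (of (Sum.inr h))) -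
      (ev (of (Sum.inr h) : FreeGroup (α ⊕ η)) -
        cb hl b φ h • ev (of (Sum.inl b) : FreeGroup (α ⊕ η)))) := by
  rw [sG_y, ev_mul, ev_inv]
  rintro (a | k) ho
  · by_cases hab : a = b
    · subst hab
      simp only [Pi.sub_apply, Pi.add_apply, Pi.neg_apply, Pi.smul_apply, ev_jn_inl, ev_of,
        Pi.single_eq_same]
      unfold cb
      simp
    · have h1 : ev (fr hl (φ : MulAut (FreeGroup α)) h) a = 0 :=
        fr_Vc φ.2 h a hab fun h' e => ho h' (congrArg Sum.inl e)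
      simp only [Pi.sub_apply, Pi.add_apply, Pi.neg_apply, Pi.smul_apply, ev_jn_inl, ev_of, h1]
      rw [Pi.single_eq_of_ne (fun e => hab (Sum.inl_injective e))]
      simp
  · simp only [Pi.sub_apply, Pi.add_apply, Pi.neg_apply, Pi.smul_apply, ev_jn_inr, ev_of]
    rw [Pi.single_eq_of_ne (show (Sum.inr k : α ⊕ η) ≠ Sum.inl b by simp)]
    simp

end

end Pool.Agent.TOW.H79
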