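import Pool.Agent.Helper79_TOR.Cls
import Pool.Agent.Helper79_TOR.Stmts

/-! T2-STAB: the action of Γ' on the complex of active spheres, stabilisation of simplices. -/

set_option autoImplicit false
set_option linter.unusedSectionVars false

namespace Pool.Agent.TST

open Pointwise Set CategoryTheory Rep Pool.Agent.TOR Pool.Agent.TOR.H58

section act

variable {ι : Type} [Fintype ι] {R : Type} [CommRing R] {z : ι} {χ : ι → Rˣ}

/-- the vertex of a sphere -/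
def vtx {E : Set (FreeGroup ι)} (h : Sph z χ E) : VV z χ := Quotient.mk (sphS z χ) ⟨E, h⟩

theorem vtx_eq_iff {E E' : Set (FreeGroup ι)} (h : Sph z χ E) (h' : Sph z χ E') :
    vtx h = vtx h' ↔ ∃ g : FreeGroup ι, E' = g • E :=
  Quotient.eq (r := sphS z χ)

theorem hsV_sph (v : VV z χ) : Sph z χ (hsV v) := (Quotient.out v).2

theorem vtx_hsV (v : VV z χ) : vtx (hsV_sph v) = v := Quotient.out_eq v

theorem hsV_vtx {E : Set (FreeGroup ι)} (h : Sph z χ E) : ∃ g : FreeGroup ι, hsV (vtx h) = g • E := by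
  have h1 := vtx_hsV (vtx h)
  exact (vtx_eq_iff h (hsV_sph (vtx h))).1 h1.symm

theorem vtx_ex (v : VV z χ) : ∃ (E : Set (FreeGroup ι)) (hE : Sph z χ E), vtx hE = v :=
  ⟨_, hsV_sph v, vtx_hsV v⟩

/-- action on vertices -/
noncomputable instance : MulAction (Gp z) (VV z χ) where
  smul φ v := Quotient.map' (s₁ := sphS z χ) (s₂ := sphS z χ)
    (fun E => ⟨(φ : MulAut (FreeGroup ι)) '' E.1, E.2.image _ φ.2⟩)
    (fun E E' ⟨g, hg⟩ => ⟨(φ : MulAut (FreeGroup ι)) g, by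
      change (φ : MulAut (FreeGroup ι)) '' E'.1 = _ • ((φ : MulAut (FreeGroup ι)) '' E.1)
      rw [hg]; exact image_smul_set _ (φ : MulAut (FreeGroup ι)) g⟩) v
  one_smul v := by
    obtain ⟨E, hE, rfl⟩ := vtx_ex v
    change vtx (hE.image _ (1 : Gp z).2) = vtx hE
    refine (vtx_eq_iff _ _).2 ⟨1, ?_⟩
    rw [one_smul]
    exact (Set.image_id E).symm
  mul_smul φ ψ v := by
    obtain ⟨E, hE, rfl⟩ := vtx_ex v
    change vtx (hE.image _ (φ * ψ : Gp z).2) = vtx ((hE.image _ ψ.2).image _ φ.2)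
    refine (vtx_eq_iff _ _).2 ⟨1, ?_⟩
    rw [one_smul]
    rw [← Set.image_comp]; rfl

theorem smul_vtx (φ : Gp z) {E : Set (FreeGroup ι)} (h : Sph z χ E) :
    φ • vtx h = vtx (h.image (φ : MulAut (FreeGroup ι)) φ.2) := rfl

theorem smul_eq_iff (φ : Gp z) (v : VV z χ) :
    φ • v = v ↔ ∃ g : FreeGroup ι, (φ : MulAut (FreeGroup ι)) '' hsV v = g • hsV v := by
  conv_lhs => rw [← vtx_hsV v, smul_vtx, eq_comm]
  exact vtx_eq_iff _ _

theorem Rel_iff {E E' : Set (FreeGroup ι)} (h : Sph z χ E) (h' : Sph z χ E') :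
    H58.Rel (FreeGroup ι) hsV (vtx h) (vtx h') ↔ ∀ g : FreeGroup ι, Nst (g • E) E' := by
  obtain ⟨a, ha⟩ := hsV_vtx h
  obtain ⟨b, hb⟩ := hsV_vtx h'
  unfold H58.Rel
  rw [ha, hb]
  constructor
  · intro k g
    have := k (b * g * a⁻¹)
    rw [smul_smul, inv_mul_cancel_right, mul_smul, nst_smul] at this
    exact this
  · intro k g
    rw [smul_smul, ← nst_smul b⁻¹, inv_smul_smul, smul_smul]
    exact k _

theorem Nst_image {F F' : Type} [Group F] [Group F'] (φ : F ≃* F') {A B : Set F} :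
    Nst (φ '' A) (φ '' B) ↔ Nst A B := by
  have hinj : ∀ A B : Set F, φ '' A ⊆ φ '' B ↔ A ⊆ B :=
    fun A B => Set.image_subset_image_iff φ.injective
  have hc : ∀ A : Set F, (φ '' A)ᶜ = φ '' Aᶜ := fun A => (Set.image_compl_eq φ.bijective).symm
  unfold Nst
  rw [hc, hc, hinj, hinj, hinj, hinj]

theorem Rel_smul (φ : Gp z) {v w : VV z χ} (h : H58.Rel (FreeGroup ι) hsV v w) :
    H58.Rel (FreeGroup ι) hsV (φ • v) (φ • w) := by
  obtain ⟨E, hE, rfl⟩ := vtx_ex v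
  obtain ⟨E', hE', rfl⟩ := vtx_ex w
  rw [smul_vtx, smul_vtx, Rel_iff]
  rw [Rel_iff] at h
  intro g
  have h1 : g • ((φ : MulAut (FreeGroup ι)) '' E) =
      (φ : MulAut (FreeGroup ι)) '' ((φ : MulAut (FreeGroup ι)).symm g • E) := by
    rw [image_smul_set _ (φ : MulAut (FreeGroup ι))]
    rw [MulEquiv.apply_symm_apply]
  rw [h1]
  exact (Nst_image (φ : MulAut (FreeGroup ι))).2 (h _)

theorem KF_down {s t : Set (VV z χ)} (h : s ⊆ t) (ht : KF (FreeGroup ι) hsV t) :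
    KF (FreeGroup ι) (hsV (z := z) (χ := χ)) s := KF_mono h ht

/-- action on ordered simplices -/
noncomputable instance (p : ℕ) : MulAction (Gp z) (XX z χ p) where
  smul φ x := ⟨fun i => φ • x.1 i, by
    rintro _ ⟨i, rfl⟩ _ ⟨j, rfl⟩
    exact Rel_smul φ (x.2 _ ⟨i, rfl⟩ _ ⟨j, rfl⟩)⟩
  one_smul x := Subtype.ext (funext fun i => one_smul _ _)
  mul_smul φ ψ x := Subtype.ext (funext fun i => mul_smul _ _ _)

theorem smul_XX (p : ℕ) (φ : Gp z) (x : XX z χ p) (i : Fin (p + 1)) : (φ • x).1 i = φ • x.1 i := rfl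

variable (z χ) in
/-- faces -/
noncomputable def fXX (p : ℕ) (i : Fin (p + 2)) (x : XX z χ (p + 1)) : XX z χ p :=
  ofc (fun _ _ h ht => KF_down h ht) p i x

theorem fXX_smul (p : ℕ) (i : Fin (p + 2)) (φ : Gp z) (x : XX z χ (p + 1)) :
    fXX z χ p i (φ • x) = φ • fXX z χ p i x := rfl

/-- the system of a simplex -/
noncomputable def sys {p : ℕ} (x : XX z χ p) : Fin (p + 1) → Set (FreeGroup ι) :=
  fun i => hsV (x.1 i)

theorem sys_isSys {p : ℕ} (x : XX z χ p) : IsSys z χ (sys x) where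
  ai _ := (hsV_sph _).ai
  nest i j g := x.2 _ ⟨i, rfl⟩ _ ⟨j, rfl⟩ g
  zin _ := (hsV_sph _).zin
  act _ := (hsV_sph _).act

theorem stab_eq {p : ℕ} (x : XX z χ p) : MulAction.stabilizer (Gp z) x = GS z (sys x) := by
  ext φ
  rw [MulAction.mem_stabilizer_iff]
  constructor
  · intro h j
    have h1 : φ • x.1 j = x.1 j := congrArg (fun y : XX z χ p => y.1 j) h
    exact (smul_eq_iff φ _).1 h1
  · intro h
    exact Subtype.ext (funext fun j => (smul_eq_iff φ _).2 (h j))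

end act

section plus

variable {ι δ : Type}

theorem jn_RSt (hH : HDS) {E : Set (FreeGroup ι)} {a : FreeGroup ι} (ha : a ∈ RSt E) :
    jn δ a ∈ RSt (pl δ E) := by
  have hd' := hH ι δ
  intro y
  change hd (y * jn δ a) ∈ E ↔ hd y ∈ E
  by_cases hy : y ∈ (jn δ).range
  · obtain ⟨x, rfl⟩ := hy
    rw [← map_mul, hd'.old, hd'.old]
    exact ha x
  · rw [hd'.right y a hy]

theorem t_RSt (hH : HDS) (E : Set (FreeGroup ι)) (d : δ) :
    FreeGroup.of (Sum.inr d) ∈ RSt (pl δ E) := by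
  intro y
  change hd (y * _) ∈ E ↔ hd y ∈ E
  rw [(hH ι δ).new]

theorem pl_smul (hH : HDS) (E : Set (FreeGroup ι)) (g : FreeGroup ι) :
    pl δ (g • E) = jn δ g • pl δ E := by
  ext y
  rw [mem_smul_iff]
  change hd y ∈ g • E ↔ hd ((jn δ g)⁻¹ * y) ∈ E
  rw [mem_smul_iff, ← map_inv, (hH ι δ).left]

theorem pl_compl (E : Set (FreeGroup ι)) : pl δ Eᶜ = (pl δ E)ᶜ := rfl

theorem upE_eq_psi (φ : MulAut (FreeGroup ι)) :
    upE (inE ι δ) φ = psi φ (fun _ => 1) (fun _ => 1) := by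
  have h : (upE (inE ι δ) φ).toMonoidHom = (psi φ (fun _ : δ => 1) (fun _ => 1)).toMonoidHom := by
    refine fx fun b => ?_
    rcases b with i | d
    · have h1 : (FreeGroup.of (Sum.inl i : ι ⊕ δ)) = FreeGroup.map (inE ι δ) (FreeGroup.of i) :=
        (mof _ _).symm
      change upE (inE ι δ) φ (FreeGroup.of (Sum.inl i)) = psi φ _ _ (FreeGroup.of (Sum.inl i))
      rw [h1, upE_map]
      exact (psi_jn φ _ _ (FreeGroup.of i)).symm
    · change upE (inE ι δ) φ (FreeGroup.of (Sum.inr d)) = psi φ _ _ (FreeGroup.of (Sum.inr d))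
      rw [upE_new _ _ _ (fun i => by rintro ⟨⟩), psi_t, map_one, one_mul, mul_one]
  ext x
  exact DFunLike.congr_fun h x

theorem pl_image (hP : PLP) (E : Set (FreeGroup ι)) (φ : MulAut (FreeGroup ι)) :
    upE (inE ι δ) φ '' pl δ E = pl δ (φ '' E) := by
  rw [upE_eq_psi]
  exact hP ι δ E φ _ _ (fun _ => one_mem _) (fun _ => one_mem _)

theorem GS_smul {κ : Type} (z : ι) (E E' : κ → Set (FreeGroup ι))
    (h : ∀ j, ∃ g : FreeGroup ι, E' j = g • E j) : GS z E' = GS z E := by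
  have key : ∀ (E E' : κ → Set (FreeGroup ι)), (∀ j, ∃ g : FreeGroup ι, E' j = g • E j) →
      GS z E ≤ GS z E' := by
    intro E E' h φ hφ j
    obtain ⟨g, hg⟩ := h j
    obtain ⟨x, hx⟩ := hφ j
    refine ⟨(φ : MulAut (FreeGroup ι)) g * x * g⁻¹, ?_⟩
    rw [hg]
    refine (image_smul_set _ (φ : MulAut (FreeGroup ι)) g).trans ?_
    rw [hx, smul_smul, smul_smul, inv_mul_cancel_right]
  refine le_antisymm (key _ _ fun j => ?_) (key _ _ h)
  obtain ⟨g, hg⟩ := h j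
  exact ⟨g⁻¹, by rw [hg, inv_smul_smul]⟩

end plus

section up

variable {ι δ : Type} [Fintype ι] [Fintype δ] {R : Type} [CommRing R] {z : ι} {χ : ι ⊕ δ → Rˣ}

theorem wt_pl (hA : PLA) {E : Set (FreeGroup ι)} (h : AI E) :
    wt χ (cl (pl δ E)) = wt (fun i => χ (Sum.inl i)) (cl E) := by
  unfold wt
  rw [Fintype.prod_sum_type]
  have h1 : ∀ d : δ, χ (Sum.inr d) ^ cl (pl δ E) (FreeGroup.of (Sum.inr d)) = 1 := fun d => by
    rw [(hA ι δ E h).2.2 d, zpow_zero]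
  rw [Finset.prod_eq_one (fun d _ => h1 d), mul_one]
  refine Finset.prod_congr rfl fun i _ => ?_
  congr 1
  have h2 := (hA ι δ E h).2.1 (FreeGroup.of i)
  rwa [mof] at h2

/-- E⁺ is a good sphere of F⁺ -/
theorem Sph.up (hH : HDS) (hA : PLA) (hN : PLN) {E : Set (FreeGroup ι)}
    (h : Sph z (fun i => χ (Sum.inl i)) E) : Sph (Sum.inl z) χ (pl δ E) where
  ai := (hA ι δ E h.ai).1
  zin := by
    have := jn_RSt (δ := δ) hH h.zin
    rwa [mof] at this
  sn := hN ι δ E E h.sn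
  act := by
    have := h.act
    unfold Actv at this ⊢
    rwa [wt_pl hA h.ai]

variable (hH : HDS) (hA : PLA) (hN : PLN) (hP : PLP)

/-- stabilisation of vertices -/
noncomputable def vUp (v : VV z (fun i => χ (Sum.inl i))) : VV (Sum.inl z) χ :=
  vtx ((hsV_sph v).up hH hA hN)

theorem vUp_vtx {E : Set (FreeGroup ι)} (h : Sph z (fun i => χ (Sum.inl i)) E) :
    vUp hH hA hN (vtx h) = vtx (h.up hH hA hN) := by
  obtain ⟨g, hg⟩ := hsV_vtx h
  refine ((vtx_eq_iff _ _).2 ⟨jn δ g, ?_⟩).symm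
  rw [hg, pl_smul hH]

include hP in
theorem vUp_smul (φ : Gp z) (v : VV z (fun i => χ (Sum.inl i))) :
    vUp hH hA hN (φ • v) = upS δ z φ • vUp hH hA hN v := by
  obtain ⟨E, hE, rfl⟩ := vtx_ex v
  rw [smul_vtx, vUp_vtx, vUp_vtx, smul_vtx]
  refine (vtx_eq_iff _ _).2 ⟨1, ?_⟩
  rw [one_smul]
  exact pl_image hP E _

theorem vUp_rel {v w : VV z (fun i => χ (Sum.inl i))} (h : H58.Rel (FreeGroup ι) hsV v w) :
    H58.Rel (FreeGroup (ι ⊕ δ)) hsV (vUp hH hA hN v) (vUp hH hA hN w) := by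
  obtain ⟨E, hE, rfl⟩ := vtx_ex v
  obtain ⟨E', hE', rfl⟩ := vtx_ex w
  rw [vUp_vtx, vUp_vtx, Rel_iff]
  rw [Rel_iff] at h
  exact hN ι δ E E' h

/-- stabilisation of ordered simplices -/
noncomputable def xUp (p : ℕ) (x : XX z (fun i => χ (Sum.inl i)) p) : XX (Sum.inl z) χ p :=
  ⟨fun i => vUp hH hA hN (x.1 i), by
    rintro _ ⟨i, rfl⟩ _ ⟨j, rfl⟩
    exact vUp_rel hH hA hN (x.2 _ ⟨i, rfl⟩ _ ⟨j, rfl⟩)⟩

include hP in
theorem xUp_smul (p : ℕ) (φ : Gp z) (x : XX z (fun i => χ (Sum.inl i)) p) :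
    xUp hH hA hN p (φ • x) = upS δ z φ • xUp hH hA hN p x :=
  Subtype.ext (funext fun i => vUp_smul hH hA hN hP φ (x.1 i))

theorem xUp_face (p : ℕ) (i : Fin (p + 2)) (x : XX z (fun i => χ (Sum.inl i)) (p + 1)) :
    xUp hH hA hN p (fXX z _ p i x) = fXX (Sum.inl z) χ p i (xUp hH hA hN (p + 1) x) := rfl

theorem stab_up {p : ℕ} (x : XX z (fun i => χ (Sum.inl i)) p) :
    MulAction.stabilizer (Gp (Sum.inl z : ι ⊕ δ)) (xUp hH hA hN p x) =
      GS (Sum.inl z) (plF δ (sys x)) := by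
  rw [stab_eq]
  exact GS_smul _ _ _ fun j => hsV_vtx ((hsV_sph (x.1 j)).up hH hA hN)

/-- the stabiliser hypothesis of LAD -/
theorem stab_zero (hZ : ZST) [IsLocalRing R] (t : ℕ) (ht : 2 * t + 1 ≤ Fintype.card δ) (p : ℕ)
    (x : XX z (fun i => χ (Sum.inl i)) p)
    (sx : MulAction.stabilizer (Gp z) x →*
      MulAction.stabilizer (Gp (Sum.inl z : ι ⊕ δ)) (xUp hH hA hN p x))
    (hsx : ∀ g, ((sx g : MulAction.stabilizer (Gp (Sum.inl z : ι ⊕ δ)) (xUp hH hA hN p x)) :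
      Gp (Sum.inl z : ι ⊕ δ)) = upS δ z (g : Gp z))
    (f : res (MulAction.stabilizer (Gp z) x).subtype (chRep R (chR z fun i => χ (Sum.inl i))) ⟶
      res sx (res (MulAction.stabilizer (Gp (Sum.inl z : ι ⊕ δ)) (xUp hH hA hN p x)).subtype
        (chRep R (chR (Sum.inl z) χ))))
    (hf : ∀ r : R, (f.hom r : R) = r) : groupHomology.map sx f t = 0 := by
  have key : ∀ (H₁ : Subgroup (Gp z)) (H₂ : Subgroup (Gp (Sum.inl z : ι ⊕ δ)))
      (_ : H₁ = GS z (sys x)) (_ : H₂ = GS (Sum.inl z) (plF δ (sys x))) (sx : H₁ →* H₂)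
      (_ : ∀ g, ((sx g : H₂) : Gp (Sum.inl z : ι ⊕ δ)) = upS δ z (g : Gp z))
      (f : res H₁.subtype (chRep R (chR z fun i => χ (Sum.inl i))) ⟶
        res sx (res H₂.subtype (chRep R (chR (Sum.inl z) χ))))
      (_ : ∀ r : R, (f.hom r : R) = r), groupHomology.map sx f t = 0 := by
    intro H₁ H₂ h₁ h₂ sx hsx f hf
    subst h₁ h₂
    exact hZ t R ι δ z χ (Fin (p + 1)) (sys x) (sys_isSys x) ht sx hsx f hf
  exact key _ _ (stab_eq x) (stab_up hH hA hN x) sx hsx f hf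

end up

end Pool.Agent.TST
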