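import Pool.Agent.Helper79_TOR.Defs

/-! T2-STAB: basic facts on almost invariant sets and their classes. -/

set_option autoImplicit false
set_option linter.unusedSectionVars false

namespace Pool.Agent.TST

open Pointwise Set CategoryTheory Rep Pool.Agent.TOR Pool.Agent.TOR.H58

section gen

variable {F : Type} [Group F]

theorem ind_mem {E : Set F} {y : F} (h : y ∈ E) : ind E y = 1 := if_pos h

theorem ind_not_mem {E : Set F} {y : F} (h : y ∉ E) : ind E y = 0 := if_neg h

theorem ind_congr {E E' : Set F} {y y' : F} (h : y ∈ E ↔ y' ∈ E') : ind E y = ind E' y' := by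
  by_cases hy : y ∈ E
  · rw [ind_mem hy, ind_mem (h.1 hy)]
  · rw [ind_not_mem hy, ind_not_mem fun k => hy (h.2 k)]

theorem ind_eq_iff {E E' : Set F} {y y' : F} : ind E y = ind E' y' ↔ (y ∈ E ↔ y' ∈ E') := by
  by_cases hy : y ∈ E <;> by_cases hy' : y' ∈ E' <;>
    simp [ind_mem, ind_not_mem, hy, hy']

theorem ind_compl (E : Set F) (y : F) : ind Eᶜ y = 1 - ind E y := by
  by_cases hy : y ∈ E
  · rw [ind_mem hy, ind_not_mem (E := Eᶜ) (fun k => k hy)]; rfl
  · rw [ind_not_mem hy, ind_mem (E := Eᶜ) hy]; rfl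

theorem ind_union {A B : Set F} (h : Disjoint A B) (y : F) :
    ind (A ∪ B) y = ind A y + ind B y := by
  by_cases ha : y ∈ A
  · have hb : y ∉ B := fun k => (Set.disjoint_left.1 h) ha k
    rw [ind_mem ha, ind_not_mem hb, ind_mem (E := A ∪ B) (Or.inl ha)]; rfl
  · by_cases hb : y ∈ B
    · rw [ind_not_mem ha, ind_mem hb, ind_mem (E := A ∪ B) (Or.inr hb)]; rfl
    · rw [ind_not_mem ha, ind_not_mem hb,
        ind_not_mem (E := A ∪ B) (by rintro (k | k); exacts [ha k, hb k])]; rfl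

theorem supp_eq (E : Set F) (x : F) :
    Function.support (fun y => ind E (y * x) - ind E y) = {y : F | ¬ (y ∈ E ↔ y * x ∈ E)} := by
  ext y
  rw [Function.mem_support, Ne, sub_eq_zero, ind_eq_iff, Set.mem_ofPred_eq]
  tauto

theorem AI.supp {E : Set F} (h : AI E) (x : F) :
    (Function.support fun y => ind E (y * x) - ind E y).Finite := by
  rw [supp_eq]; exact h x

theorem mem_smul_iff (g : F) (E : Set F) (y : F) : y ∈ g • E ↔ g⁻¹ * y ∈ E := by
  rw [Set.mem_smul_set_iff_inv_smul_mem, smul_eq_mul]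

theorem AI.compl {E : Set F} (h : AI E) : AI Eᶜ := fun x => by
  refine (h x).subset fun y hy => ?_
  simp only [Set.mem_ofPred_eq, Set.mem_compl_iff] at hy ⊢
  tauto

theorem AI.inter {E E' : Set F} (h : AI E) (h' : AI E') : AI (E ∩ E') := fun x => by
  refine ((h x).union (h' x)).subset fun y hy => ?_
  simp only [Set.mem_ofPred_eq, Set.mem_inter_iff, Set.mem_union] at hy ⊢
  tauto

theorem AI.union {E E' : Set F} (h : AI E) (h' : AI E') : AI (E ∪ E') := fun x => by
  refine ((h x).union (h' x)).subset fun y hy => ?_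
  simp only [Set.mem_ofPred_eq, Set.mem_union] at hy ⊢
  tauto

theorem AI.smul {E : Set F} (h : AI E) (g : F) : AI (g • E) := fun x => by
  refine ((h x).image (fun y => g * y)).subset fun y hy => ?_
  rw [Set.mem_ofPred_eq, mem_smul_iff, mem_smul_iff, ← mul_assoc] at hy
  exact ⟨g⁻¹ * y, hy, by simp⟩

theorem mem_image_iff {F' : Type} [Group F'] (φ : F ≃* F') (E : Set F) (y : F') :
    y ∈ φ '' E ↔ φ.symm y ∈ E := by
  constructor
  · rintro ⟨x, hx, rfl⟩; simpa using hx
  · intro h; exact ⟨_, h, by simp⟩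

theorem AI.image {F' : Type} [Group F'] {E : Set F} (h : AI E) (φ : F ≃* F') : AI (φ '' E) :=
  fun x => by
  refine ((h (φ.symm x)).image φ).subset fun y hy => ?_
  rw [Set.mem_ofPred_eq, mem_image_iff, mem_image_iff, map_mul] at hy
  exact ⟨φ.symm y, hy, by simp⟩

/-- it is enough to check almost invariance on generators -/
theorem AI_of_closure {E : Set F} (S : Set F) (hS : Subgroup.closure S = ⊤)
    (h : ∀ x ∈ S, {y : F | ¬ (y ∈ E ↔ y * x ∈ E)}.Finite) : AI E := by
  let K : Subgroup F :=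
    { carrier := {x | {y : F | ¬ (y ∈ E ↔ y * x ∈ E)}.Finite}
      one_mem' := by
        have : {y : F | ¬ (y ∈ E ↔ y * 1 ∈ E)} = ∅ := by
          ext y; simp
        change Set.Finite _
        rw [this]; exact Set.finite_empty
      mul_mem' := fun {a b} ha hb => by
        change Set.Finite _ at ha hb ⊢
        refine (ha.union (hb.image fun y => y * a⁻¹)).subset fun y hy => ?_
        by_cases h1 : ¬ (y ∈ E ↔ y * a ∈ E)
        · exact Or.inl h1
        · refine Or.inr ⟨y * a, ?_, by simp⟩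
          rw [Set.mem_ofPred_eq] at hy ⊢
          rw [mul_assoc]
          tauto
      inv_mem' := fun {a} ha => by
        change Set.Finite _ at ha ⊢
        refine (ha.image fun y => y * a).subset fun y hy => ?_
        refine ⟨y * a⁻¹, ?_, by simp⟩
        rw [Set.mem_ofPred_eq] at hy ⊢
        rw [inv_mul_cancel_right]
        tauto }
  have h1 : Subgroup.closure S ≤ K := (Subgroup.closure_le K).2 h
  intro x
  have h2 : x ∈ Subgroup.closure S := by rw [hS]; trivial
  exact h1 h2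

theorem cl_mul {E : Set F} (h : AI E) (x y : F) : cl E (x * y) = cl E x + cl E y := by
  have h1 : cl E y = ∑ᶠ g : F, (ind E (g * x * y) - ind E (g * x)) := by
    unfold cl
    exact (finsum_comp_equiv (Equiv.mulRight x) (f := fun g => ind E (g * y) - ind E g)).symm
  have h2 : (Function.support fun g : F => ind E (g * x * y) - ind E (g * x)).Finite := by
    refine ((h.supp y).image fun g => g * x⁻¹).subset fun g hg => ?_
    exact ⟨g * x, hg, by simp⟩
  rw [h1]
  unfold cl
  rw [← finsum_add_distrib (h.supp x) h2]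
  refine finsum_congr fun g => ?_
  rw [mul_assoc]; ring

theorem cl_one (E : Set F) : cl E 1 = 0 := by
  unfold cl
  simp

theorem cl_inv {E : Set F} (h : AI E) (x : F) : cl E x⁻¹ = - cl E x := by
  have := cl_mul h x x⁻¹
  rw [mul_inv_cancel, cl_one] at this
  omega

/-- the class as a homomorphism -/
noncomputable def clH {E : Set F} (h : AI E) : F →* Multiplicative ℤ where
  toFun x := Multiplicative.ofAdd (cl E x)
  map_one' := by rw [cl_one]; rfl
  map_mul' x y := by rw [cl_mul h, ofAdd_add]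

theorem clH_apply {E : Set F} (h : AI E) (x : F) :
    clH h x = Multiplicative.ofAdd (cl E x) := rfl

theorem cl_smul (E : Set F) (g x : F) : cl (g • E) x = cl E x := by
  unfold cl
  rw [← finsum_comp_equiv (Equiv.mulLeft g) (f := fun y => ind (g • E) (y * x) - ind (g • E) y)]
  refine finsum_congr fun y => ?_
  have h1 : ind (g • E) (g * y * x) = ind E (y * x) := ind_congr (by
    rw [mem_smul_iff]; simp [mul_assoc])
  have h2 : ind (g • E) (g * y) = ind E y := ind_congr (by
    rw [mem_smul_iff]; simp)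
  change ind (g • E) (g * y * x) - ind (g • E) (g * y) = _
  rw [h1, h2]

theorem cl_compl (E : Set F) (x : F) : cl Eᶜ x = - cl E x := by
  unfold cl
  rw [← finsum_neg_distrib]
  refine finsum_congr fun y => ?_
  rw [ind_compl, ind_compl]; ring

theorem cl_image {F' : Type} [Group F'] (E : Set F) (φ : F ≃* F') (x : F) :
    cl (φ '' E) (φ x) = cl E x := by
  unfold cl
  rw [← finsum_comp_equiv φ.toEquiv (f := fun y => ind (φ '' E) (y * φ x) - ind (φ '' E) y)]
  refine finsum_congr fun y => ?_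
  change ind (φ '' E) (φ y * φ x) - ind (φ '' E) (φ y) = _
  have h1 : ind (φ '' E) (φ y * φ x) = ind E (y * x) := by
    by_cases hy : y * x ∈ E
    · rw [ind_mem hy, ind_mem (by rw [← map_mul]; exact Set.mem_image_of_mem φ hy)]
    · rw [ind_not_mem hy, ind_not_mem (by rw [← map_mul, mem_image_iff]; simpa using hy)]
  have h2 : ind (φ '' E) (φ y) = ind E y := by
    by_cases hy : y ∈ E
    · rw [ind_mem hy, ind_mem (Set.mem_image_of_mem φ hy)]
    · rw [ind_not_mem hy, ind_not_mem (by rw [mem_image_iff]; simpa using hy)]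
  rw [h1, h2]

theorem cl_union {A B : Set F} (h : Disjoint A B) (hA : AI A) (hB : AI B) (x : F) :
    cl (A ∪ B) x = cl A x + cl B x := by
  unfold cl
  rw [← finsum_add_distrib (hA.supp x) (hB.supp x)]
  refine finsum_congr fun y => ?_
  rw [ind_union h, ind_union h]; ring

theorem cl_RSt {E : Set F} {a : F} (ha : a ∈ RSt E) : cl E a = 0 := by
  unfold cl
  have : ∀ y, ind E (y * a) - ind E y = 0 := fun y => by
    rw [sub_eq_zero]; exact ind_congr (ha y)
  simp [this]

theorem RSt_smul (E : Set F) (g : F) : RSt (g • E) = RSt E := by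
  ext a
  rw [mem_RSt, mem_RSt]
  constructor
  · intro h y
    have := h (g * y)
    rwa [mem_smul_iff, mem_smul_iff, ← mul_assoc, ← mul_assoc, inv_mul_cancel, one_mul] at this
  · intro h y
    rw [mem_smul_iff, mem_smul_iff, ← mul_assoc]
    exact h _

theorem RSt_compl (E : Set F) : RSt Eᶜ = RSt E := by
  ext a
  rw [mem_RSt, mem_RSt]
  exact forall_congr' fun y => by
    rw [Set.mem_compl_iff, Set.mem_compl_iff, not_iff_not]

theorem RSt_image {F' : Type} [Group F'] (E : Set F) (φ : F ≃* F') (a : F) :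
    φ a ∈ RSt (φ '' E) ↔ a ∈ RSt E := by
  rw [mem_RSt, mem_RSt]
  constructor
  · intro h y
    have := h (φ y)
    rwa [← map_mul, mem_image_iff, mem_image_iff, φ.symm_apply_apply, φ.symm_apply_apply] at this
  · intro h y
    rw [mem_image_iff, mem_image_iff, map_mul, φ.symm_apply_apply]
    exact h _

theorem image_smul_set {F' : Type} [Group F'] (E : Set F) (φ : F ≃* F') (g : F) :
    φ '' (g • E) = φ g • (φ '' E) := by
  ext y
  rw [mem_image_iff, mem_smul_iff, mem_smul_iff, mem_image_iff, map_mul, map_inv,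
    φ.symm_apply_apply]

theorem nontriv_of_cls {E : Set F} (h : ∃ x, cl E x ≠ 0) : ∃ x y, y ∈ E ∧ y * x ∉ E := by
  by_contra hc
  push Not at hc
  obtain ⟨x, hx⟩ := h
  refine hx ?_
  refine cl_RSt fun y => ⟨fun h => ?_, fun h => hc x y h⟩
  have := hc x⁻¹ (y * x) h
  rwa [mul_inv_cancel_right] at this

/-- translates of a cut of nonzero class are different -/
theorem free_of_cls [IsMulTorsionFree F] {E : Set F} (hE : AI E) (h : ∃ x, cl E x ≠ 0) {g : F}
    (hg : g • E = E) : g = 1 := by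
  obtain ⟨x, y, hy, hyx⟩ := nontriv_of_cls h
  by_contra hne
  have hinj : Function.Injective fun n : ℕ => g ^ n * y := by
    intro n m hnm
    have h1 : g ^ n = g ^ m := mul_right_cancel hnm
    exact (injective_pow_iff_not_isOfFinOrder.2 fun h => hne ((isOfFinOrder_iff_eq_one g).1 h)) h1
  have hmem : ∀ n : ℕ, ∀ w, g ^ n * w ∈ E ↔ w ∈ E := by
    intro n
    induction n with
    | zero => intro w; simp
    | succ n ih =>
      intro w
      rw [pow_succ, mul_assoc, ih]
      have h2 := mem_smul_iff g E (g * w)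
      rw [hg, inv_mul_cancel_left] at h2
      exact h2
  refine Set.not_injOn_infinite_finite_image (f := fun n : ℕ => g ^ n * y) (s := Set.univ)
    Set.infinite_univ ((hE x).subset ?_) hinj.injOn
  rintro _ ⟨n, _, rfl⟩
  rw [Set.mem_ofPred_eq, mul_assoc, hmem, hmem]
  tauto

theorem ne_compl_of_cls {E : Set F} (h : ∃ x, cl E x ≠ 0) (g : F) : g • E ≠ Eᶜ := by
  intro hg
  obtain ⟨x, hx⟩ := h
  have h1 := cl_smul E g x
  rw [hg, cl_compl] at h1
  omega

/-- finitely many translates separate two points -/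
theorem sep_finite {E : Set F} (h : AI E) (p q : F) :
    {g : F | ¬ (p ∈ g • E ↔ q ∈ g • E)}.Finite := by
  refine ((h (p⁻¹ * q)).image fun y => p * y⁻¹).subset fun g hg => ?_
  rw [Set.mem_ofPred_eq, mem_smul_iff, mem_smul_iff] at hg
  refine ⟨g⁻¹ * p, ?_, by simp⟩
  rw [Set.mem_ofPred_eq]
  have : g⁻¹ * p * (p⁻¹ * q) = g⁻¹ * q := by group
  rwa [this]

variable {κ : Type}

theorem HS_self (E : κ → Set F) (j : κ) : E j ∈ HS E := ⟨j, 1, Or.inl (one_smul _ _).symm⟩

theorem HS_compl {E : κ → Set F} {B : Set F} (h : B ∈ HS E) : Bᶜ ∈ HS E := by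
  obtain ⟨j, g, rfl | rfl⟩ := h
  · exact ⟨j, g, Or.inr rfl⟩
  · exact ⟨j, g, Or.inl (compl_compl _)⟩

theorem HS_smul {E : κ → Set F} {B : Set F} (h : B ∈ HS E) (x : F) : x • B ∈ HS E := by
  obtain ⟨j, g, rfl | rfl⟩ := h
  · exact ⟨j, x * g, Or.inl (by rw [smul_smul])⟩
  · exact ⟨j, x * g, Or.inr (by rw [smul_set_compl, smul_smul])⟩

theorem HS_nst {E : κ → Set F} (hE : IsFam E) {B C : Set F} (hB : B ∈ HS E) (hC : C ∈ HS E) :
    Nst B C := by
  obtain ⟨i, g, hB⟩ := hB
  obtain ⟨j, h, hC⟩ := hC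
  have key : Nst (g • E i) (h • E j) := by
    rw [← nst_smul h⁻¹, inv_smul_smul, smul_smul]
    exact hE.nest i j _
  rcases hB with rfl | rfl <;> rcases hC with rfl | rfl
  · exact key
  · exact nst_compl_right.2 key
  · exact nst_compl_left.2 key
  · exact nst_compl_left.2 (nst_compl_right.2 key)

theorem HS_ai {E : κ → Set F} (hE : IsFam E) {B : Set F} (hB : B ∈ HS E) : AI B := by
  obtain ⟨i, g, rfl | rfl⟩ := hB
  · exact (hE.ai i).smul g
  · exact ((hE.ai i).smul g).compl

theorem HS_cls {E : κ → Set F} (hE : IsFam E) {B : Set F} (hB : B ∈ HS E) : ∃ x, cl B x ≠ 0 := by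
  obtain ⟨i, g, h⟩ := hB
  obtain ⟨x, hx⟩ := hE.cls i
  refine ⟨x, ?_⟩
  rcases h with rfl | rfl
  · rwa [cl_smul]
  · rw [cl_compl, cl_smul]; omega

/-- elements of A0 stabilise all half-spaces -/
theorem A0_HS {E : κ → Set F} {a : F} (ha : a ∈ A0 E) {B : Set F} (hB : B ∈ HS E) : a ∈ RSt B := by
  obtain ⟨i, g, rfl | rfl⟩ := hB
  · rw [RSt_smul]; exact mem_A0.1 ha i
  · rw [RSt_compl, RSt_smul]; exact mem_A0.1 ha i

/-- automorphisms preserving the orbits permute the half-spaces -/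
theorem HS_image {E : κ → Set F} {φ : MulAut F} (h : ∀ j, ∃ g : F, φ '' E j = g • E j)
    {B : Set F} (hB : B ∈ HS E) : φ '' B ∈ HS E := by
  obtain ⟨j, x, hB⟩ := hB
  obtain ⟨g, hg⟩ := h j
  have h1 : φ '' (x • E j) = (φ x * g) • E j := by
    rw [← smul_smul, ← hg]; exact image_smul_set _ φ x
  rcases hB with rfl | rfl
  · exact ⟨j, _, Or.inl h1⟩
  · exact ⟨j, _, Or.inr (by rw [Set.image_compl_eq φ.bijective, h1])⟩

end gen

section letters

variable {ι : Type} [Fintype ι] {R : Type} [CommRing R]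

theorem wt_congr (χ : ι → Rˣ) {h h' : FreeGroup ι → ℤ}
    (e : ∀ i, h (FreeGroup.of i) = h' (FreeGroup.of i)) : wt χ h = wt χ h' :=
  Finset.prod_congr rfl fun i _ => by rw [e]

theorem wt_add (χ : ι → Rˣ) (h h' : FreeGroup ι → ℤ) :
    wt χ (fun x => h x + h' x) = wt χ h * wt χ h' := by
  unfold wt
  rw [← Finset.prod_mul_distrib]
  exact Finset.prod_congr rfl fun i _ => zpow_add _ _ _

theorem wt_neg (χ : ι → Rˣ) (h : FreeGroup ι → ℤ) : wt χ (fun x => - h x) = (wt χ h)⁻¹ := by
  unfold wt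
  rw [← Finset.prod_inv_distrib]
  exact Finset.prod_congr rfl fun i _ => zpow_neg _ _

theorem wt_zero (χ : ι → Rˣ) : wt χ (fun _ => 0) = 1 := by
  unfold wt
  simp

theorem Actv.smul {χ : ι → Rˣ} {E : Set (FreeGroup ι)} (h : Actv χ E) (g : FreeGroup ι) :
    Actv χ (g • E) := by
  unfold Actv at h ⊢
  rwa [wt_congr χ (h' := cl E) fun i => cl_smul E g _]

theorem isUnit_inv_sub_one {w : Rˣ} (h : IsUnit ((w : R) - 1)) : IsUnit (((w⁻¹ : Rˣ) : R) - 1) := by
  have h1 : ((w⁻¹ : Rˣ) : R) - 1 = -(((w⁻¹ : Rˣ) : R) * ((w : R) - 1)) := by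
    rw [mul_sub, Units.inv_mul]; ring
  rw [h1]
  exact ((w⁻¹).isUnit.mul h).neg

theorem Actv.compl {χ : ι → Rˣ} {E : Set (FreeGroup ι)} (h : Actv χ E) : Actv χ Eᶜ := by
  unfold Actv at h ⊢
  rw [wt_congr χ (h' := fun x => - cl E x) fun i => cl_compl E _, wt_neg]
  exact isUnit_inv_sub_one h

theorem Actv.cls [Nontrivial R] {χ : ι → Rˣ} {E : Set (FreeGroup ι)} (h : Actv χ E) :
    ∃ x, cl E x ≠ 0 := by
  by_contra hc
  push Not at hc
  unfold Actv at h
  rw [wt_congr χ (h' := fun _ => 0) fun i => hc _, wt_zero] at h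
  simp at h

/-- the class of a z-invariant cut is preserved by Γ' -/
theorem cl_Gp {z : ι} {E : Set (FreeGroup ι)} (hE : AI E) (hz : FreeGroup.of z ∈ RSt E)
    (φ : MulAut (FreeGroup ι)) (hφ : φ ∈ Gp z) (x : FreeGroup ι) : cl (φ '' E) x = cl E x := by
  obtain ⟨y, rfl⟩ := φ.surjective x
  have h1 := cl_image E φ y
  have h2 := hom_inv (z := z) (clH hE) (by rw [clH_apply, cl_RSt hz]; rfl) φ hφ y
  exact h1.trans (Multiplicative.ofAdd.injective h2).symm

theorem Actv.image {χ : ι → Rˣ} {z : ι} {E : Set (FreeGroup ι)} (h : Actv χ E) (hE : AI E)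
    (hz : FreeGroup.of z ∈ RSt E) (φ : MulAut (FreeGroup ι)) (hφ : φ ∈ Gp z) :
    Actv χ (φ '' E) := by
  unfold Actv at h ⊢
  rwa [wt_congr χ (h' := cl E) fun i => cl_Gp hE hz φ hφ _]

theorem zin_image {z : ι} {E : Set (FreeGroup ι)} (hz : FreeGroup.of z ∈ RSt E)
    (φ : MulAut (FreeGroup ι)) (hφ : φ ∈ Gp z) : FreeGroup.of z ∈ RSt (φ '' E) := by
  have := (RSt_image E φ (FreeGroup.of z)).2 hz
  rwa [hφ.1] at this

theorem SN_image {F : Type} [Group F] {E : Set F} (h : SN F E) (φ : F ≃* F) :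
    SN F (φ '' E) := by
  intro g
  have h1 : g • (φ '' E) = φ '' (φ.symm g • E) := by rw [image_smul_set, φ.apply_symm_apply]
  rw [h1]
  have hinj : ∀ A B : Set F, φ '' A ⊆ φ '' B ↔ A ⊆ B := fun A B => Set.image_subset_image_iff φ.injective
  have hc : (φ '' E)ᶜ = φ '' Eᶜ := (Set.image_compl_eq φ.bijective).symm
  have hc2 : (φ '' (φ.symm g • E))ᶜ = φ '' (φ.symm g • E)ᶜ := (Set.image_compl_eq φ.bijective).symm
  rcases h (φ.symm g) with k | k | k | k
  · exact Or.inl ((hinj _ _).2 k)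
  · exact Or.inr (Or.inl ((hinj _ _).2 k))
  · exact Or.inr (Or.inr (Or.inl (by rw [hc]; exact (hinj _ _).2 k)))
  · exact Or.inr (Or.inr (Or.inr (by rw [hc2]; exact (hinj _ _).2 k)))

theorem Sph.image {χ : ι → Rˣ} {z : ι} {E : Set (FreeGroup ι)} (h : Sph z χ E)
    (φ : MulAut (FreeGroup ι)) (hφ : φ ∈ Gp z) : Sph z χ (φ '' E) :=
  ⟨h.ai.image φ, zin_image h.zin φ hφ, SN_image h.sn φ, h.act.image h.ai h.zin φ hφ⟩

theorem IsSys.fam [Nontrivial R] {χ : ι → Rˣ} {z : ι} {κ : Type} {E : κ → Set (FreeGroup ι)}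
    (h : IsSys z χ E) : IsFam E := ⟨h.ai, h.nest, fun j => (h.act j).cls⟩

end letters

end Pool.Agent.TST
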