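import Pool.Agent.Helper79_TOR.Stmts
import Pool.Agent.Helper41_TOR.Tz
import Pool.Agent.Helper56_TOR.Heis
import Pool.Agent.Helper57_TOR.Nu1

/-! T2-STAB: near unipotence in the form used by NUc: from T2L to IA. -/

set_option autoImplicit false
set_option linter.unusedSectionVars false

namespace Pool.Agent.TST

open Pointwise Set CategoryTheory Rep Pool.Agent.TOR Pool.Agent.TOR.H58
open Pool.Agent.TOR.H57 (IA st stI inn mem_IA_letters)
open Pool.Agent.TOR.H56 (Kl)

/-- T2N: classes of H_q(IA(F_X)) are unipotent for the transvections x ↦ x z^(f x), z a far letter,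
in H_q(IA(F_(X ⊕ Y))), Y large -/
def T2N : Prop := ∀ q : ℕ, ∃ K : ℕ, ∀ (X Y : Type) [Finite X] [Finite Y] (y0 : Y),
  K ≤ Nat.card Y → ∀ (f : FreeGroup X →* Multiplicative ℤ) (T : MulAut (FreeGroup (X ⊕ Y))),
  (∀ x, Abelianization.of (T (FreeGroup.of (Sum.inl x))) =
    Abelianization.of (FreeGroup.of (Sum.inl x) *
      FreeGroup.of (Sum.inr y0) ^ (Multiplicative.toAdd (f (FreeGroup.of x))))) →
  (∀ y, Abelianization.of (T (FreeGroup.of (Sum.inr y))) =
    Abelianization.of (FreeGroup.of (Sum.inr y))) →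
  ∀ x : groupHomology (Rep.trivial ℚ (IA (FreeGroup X)) ℚ) q,
    ∃ a : ℕ, ((cR (IA (FreeGroup (X ⊕ Y))) q T - 1) ^ a) (hn (stI (Y := Y)) q x) = 0

section homology

variable {N N' N'' : Type} [Group N] [Group N'] [Group N'']

theorem hn_comp (f : N →* N') (g : N' →* N'') (i : ℕ) :
    hn (g.comp f) i = hn g i ∘ₗ hn f i := by
  unfold hn
  have h := groupHomology.map_comp (A := Rep.trivial ℚ N ℚ) (B := Rep.trivial ℚ N' ℚ)
    (C := Rep.trivial ℚ N'' ℚ) f g (𝟙 (Rep.trivial ℚ N ℚ)) (𝟙 (Rep.trivial ℚ N' ℚ)) i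
  have h2 : groupHomology.map (A := Rep.trivial ℚ N ℚ) (B := Rep.trivial ℚ N'' ℚ) (g.comp f)
    (𝟙 (Rep.trivial ℚ N ℚ)) i = groupHomology.map (A := Rep.trivial ℚ N ℚ)
      (B := Rep.trivial ℚ N'' ℚ) (g.comp f) ((𝟙 (Rep.trivial ℚ N ℚ)) ≫
        (resFunctor f).map (𝟙 (Rep.trivial ℚ N' ℚ))) i :=
    groupHomology.map_congr rfl (by ext; rfl) i
  exact congrArg ModuleCat.Hom.hom (h2.trans h)

/-- naturality of the conjugation action -/
theorem cR_nat {G G' : Type} [Group G] [Group G'] (N : Subgroup G) [N.Normal] (N' : Subgroup G')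
    [N'.Normal] (j : G →* G') (jN : N →* N') (hj : ∀ x, ((jN x : N') : G') = j x) (i : ℕ) (g : G)
    (w : groupHomology (Rep.trivial ℚ N ℚ) i) :
    hn jN i (cR N i g w) = cR N' i (j g) (hn jN i w) := by
  have h : jN.comp (cN N g) = (cN N' (j g)).comp jN := by
    ext x
    change ((jN (cN N g x) : N') : G') = (cN N' (j g) (jN x) : G')
    rw [hj, cN_coe, cN_coe, hj, map_mul, map_mul, map_inv]
  have h1 := hn_comp (cN N g) jN i
  have h2 := hn_comp jN (cN N' (j g)) i
  rw [h, h2] at h1
  exact (DFunLike.congr_fun h1 w).symm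

theorem cR_nat_pow {G G' : Type} [Group G] [Group G'] (N : Subgroup G) [N.Normal]
    (N' : Subgroup G') [N'.Normal] (j : G →* G') (jN : N →* N')
    (hj : ∀ x, ((jN x : N') : G') = j x) (i : ℕ) (g : G) (m : ℕ)
    (w : groupHomology (Rep.trivial ℚ N ℚ) i) :
    hn jN i (((cR N i g - 1) ^ m) w) = ((cR N' i (j g) - 1) ^ m) (hn jN i w) := by
  induction m generalizing w with
  | zero => simp
  | succ m ih =>
    rw [pow_succ, Module.End.mul_apply, ih, pow_succ, Module.End.mul_apply]
    congr 1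
    rw [LinearMap.sub_apply, LinearMap.sub_apply, map_sub, cR_nat N N' j jN hj]
    rfl

end homology

section algebra

variable {k V : Type} [Field k] [AddCommGroup V] [Module k V]

theorem kl_mul {A B : Module.End k V} (h : Commute A B) {v : V} (hA : Kl (A - 1) v)
    (hB : Kl (B - 1) v) : Kl (A * B - 1) v := by
  have e : A * B - 1 = A * (B - 1) + (A - 1) := by rw [mul_sub, mul_one]; abel
  have c1 : Commute (B - 1) A := (h.symm.sub_left (Commute.one_left A))
  rw [e]
  refine Kl.add ?_ (Kl.mul_right c1 hB) hA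
  have c2 : Commute A (A - 1) := (Commute.refl A).sub_right (Commute.one_right A)
  have c3 : Commute (B - 1) (A - 1) := c1.sub_right (Commute.one_right _)
  exact c2.mul_left c3

theorem kl_inv {A B : Module.End k V} (h : A * B = 1) (h' : B * A = 1) {v : V}
    (hA : Kl (A - 1) v) : Kl (B - 1) v := by
  have e : B - 1 = (-B) * (A - 1) := by rw [mul_sub, neg_mul, h', mul_one]; abel
  have c : Commute (A - 1) (-B) := by
    have : Commute A B := by rw [Commute, SemiconjBy, h, h']
    exact (this.sub_left (Commute.one_left B)).neg_right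
  rw [e]
  exact Kl.mul_right c hA

end algebra

section expo

variable {β : Type}

theorem expo_ab {y : β} {a b : FreeGroup β}
    (h : Abelianization.of a = Abelianization.of b) : expo y a = expo y b := by
  have := congrArg (Abelianization.lift (expo y)) h
  rwa [Abelianization.lift_apply_of, Abelianization.lift_apply_of] at this

theorem ab_expo [Finite β] {a b : FreeGroup β} (h : ∀ y, expo y a = expo y b) :
    Abelianization.of a = Abelianization.of b := by
  classical
  have : Fintype β := Fintype.ofFinite β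
  have e : (Abelianization.of : FreeGroup β →* Abelianization (FreeGroup β)) =
      ∏ y : β, ((zpowersHom _ (Abelianization.of (FreeGroup.of y))).comp (expo y)) := by
    refine fx fun c => ?_
    rw [MonoidHom.finsetProd_apply, Finset.prod_eq_single c]
    · rw [MonoidHom.comp_apply, expo, FreeGroup.lift_apply_of, if_pos rfl, zpowersHom_apply]
      simp
    · intro y _ hy
      rw [MonoidHom.comp_apply, expo, FreeGroup.lift_apply_of, if_neg (fun k => hy k.symm), map_one]
    · intro k; exact absurd (Finset.mem_univ _) k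
  rw [e, MonoidHom.finsetProd_apply, MonoidHom.finsetProd_apply]
  exact Finset.prod_congr rfl fun y _ => by rw [MonoidHom.comp_apply, MonoidHom.comp_apply, h y]

end expo

section main

variable {X Y : Type} [Finite X] [Finite Y] (y0 : Y)

/-- the embedding X ⊕ Unit → X ⊕ Y -/
def eXY : X ⊕ Unit ↪ X ⊕ Y where
  toFun := Sum.elim Sum.inl fun _ => Sum.inr y0
  inj' := by
    rintro (x | u) (x' | u') h
    · have := Sum.inl.inj h; rw [this]
    · cases h
    · cases h
    · rfl

/-- IA(F_X) → N(F_(X ⊕ Unit), z) -/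
noncomputable def jIn : IA (FreeGroup X) →* Nz (Sum.inr () : X ⊕ Unit) where
  toFun φ := ⟨⟨st (Y := Unit) (φ : MulAut (FreeGroup X)), by
      refine ⟨?_, fun y _ g => ?_⟩
      · exact H57.st_inr _ ()
      · exact expo_ab (H57.st_mem _ φ.2 g)⟩, fun g => expo_ab (H57.st_mem _ φ.2 g)⟩
  map_one' := Subtype.ext (Subtype.ext (map_one st))
  map_mul' φ ψ := Subtype.ext (Subtype.ext (map_mul st _ _))

/-- N(F, z) → IA(F) -/
noncomputable def jOut {β : Type} [Finite β] (z : β) : Nz z →* IA (FreeGroup β) where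
  toFun φ := ⟨((φ : Gp z) : MulAut (FreeGroup β)), fun g => ab_expo fun y => by
    by_cases hy : y = z
    · rw [hy]; exact φ.2 g
    · exact (φ : Gp z).2.2 y hy g⟩
  map_one' := rfl
  map_mul' _ _ := rfl

theorem comp_eq : (jOut (eXY y0 (Sum.inr () : X ⊕ Unit))).comp
    ((upN (eXY y0) (Sum.inr ())).comp jIn) = stI (X := X) (Y := Y) := by
  refine MonoidHom.ext fun φ => Subtype.ext ?_
  refine H57.aut_ext ?_
  change ∀ b, upE (eXY y0) (st (Y := Unit) (φ : MulAut (FreeGroup X))) (FreeGroup.of b) =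
    st (Y := Y) (φ : MulAut (FreeGroup X)) (FreeGroup.of b)
  rintro (x | y)
  · have h1 : (FreeGroup.of (Sum.inl x : X ⊕ Y)) =
        FreeGroup.map (eXY y0) (FreeGroup.of (Sum.inl x)) := (mof _ _).symm
    conv_lhs => rw [h1, upE_map, H57.st_inl]
    rw [H57.st_inl]
    have h2 : (FreeGroup.map (eXY y0)).comp (inn (X := X) (Y := Unit)) = inn (X := X) (Y := Y) := by
      refine fx fun a => ?_
      rw [MonoidHom.comp_apply, H57.inn_of, mof, H57.inn_of]; rfl
    exact DFunLike.congr_fun h2 _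
  · by_cases hy : y = y0
    · subst hy
      have h1 : (FreeGroup.of (Sum.inr y : X ⊕ Y)) =
          FreeGroup.map (eXY y) (FreeGroup.of (Sum.inr ())) := (mof _ _).symm
      conv_lhs => rw [h1, upE_map, H57.st_inr]
      rw [H57.st_inr, mof]; rfl
    · rw [upE_new, H57.st_inr]
      rintro (x | u) h
      · cases h
      · exact hy (Sum.inr.inj h).symm

/-- the transvections x ↦ x z^(n x) -/
noncomputable def tauH (n : X → ℤ) : FreeGroup (X ⊕ Y) →* FreeGroup (X ⊕ Y) :=
  FreeGroup.lift (Sum.elim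
    (fun x => FreeGroup.of (Sum.inl x) * FreeGroup.of (Sum.inr y0) ^ n x)
    fun y => FreeGroup.of (Sum.inr y))

theorem tauH_inl (n : X → ℤ) (x : X) : tauH y0 n (FreeGroup.of (Sum.inl x)) =
    FreeGroup.of (Sum.inl x) * FreeGroup.of (Sum.inr y0) ^ n x := FreeGroup.lift_apply_of

theorem tauH_inr (n : X → ℤ) (y : Y) : tauH (X := X) y0 n (FreeGroup.of (Sum.inr y)) =
    FreeGroup.of (Sum.inr y) := FreeGroup.lift_apply_of

theorem tauH_add (n m : X → ℤ) (b : X ⊕ Y) : tauH y0 n (tauH y0 m (FreeGroup.of b)) =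
    tauH y0 (n + m) (FreeGroup.of b) := by
  rcases b with x | y
  · rw [tauH_inl, map_mul, tauH_inl, map_zpow, tauH_inr, tauH_inl, mul_assoc, ← zpow_add,
      Pi.add_apply]
  · rw [tauH_inr, tauH_inr, tauH_inr]

theorem tauH_zero (b : X ⊕ Y) : tauH y0 (0 : X → ℤ) (FreeGroup.of b) = FreeGroup.of b := by
  rcases b with x | y
  · rw [tauH_inl, Pi.zero_apply, zpow_zero, mul_one]
  · rw [tauH_inr]

noncomputable def tau (n : X → ℤ) : MulAut (FreeGroup (X ⊕ Y)) :=
  H57.mkAut (tauH y0 n) (tauH y0 (-n))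
    (fun b => by rw [tauH_add, add_neg_cancel, tauH_zero])
    (fun b => by rw [tauH_add, neg_add_cancel, tauH_zero])

theorem tau_apply (n : X → ℤ) (x : FreeGroup (X ⊕ Y)) : tau y0 n x = tauH y0 n x := rfl

theorem tau_add (n m : X → ℤ) : tau y0 n * tau (Y := Y) y0 m = tau y0 (n + m) :=
  H57.aut_ext fun b => tauH_add y0 n m b

theorem tau_zero : tau (Y := Y) y0 (0 : X → ℤ) = 1 := H57.aut_ext fun b => tauH_zero y0 b

theorem t2n (hT : T2L) : T2N := by
  classical
  intro q
  refine ⟨1 + (q + 1) * (2 * q + 1), ?_⟩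
  intro X Y _ _ y0 hK f T hT1 hT2 x
  have : Fintype X := Fintype.ofFinite X
  have : Fintype Y := Fintype.ofFinite Y
  set v := hn (stI (X := X) (Y := Y)) q x with hv
  -- basic transvections
  have key1 : ∀ x0 : X, Kl (cR (IA (FreeGroup (X ⊕ Y))) q (tau y0 (Pi.single x0 1)) - 1) v := by
    intro x0
    have hmem : tau (Y := Y) y0 (Pi.single x0 1) ∈ Gp (eXY y0 (Sum.inr () : X ⊕ Unit)) := by
      refine ⟨tauH_inr y0 (Pi.single x0 1) y0, fun y hy g => ?_⟩
      have h : (expo y).comp (tau y0 (Pi.single x0 1)).toMonoidHom = expo y := by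
        refine fx fun b => ?_
        change expo y (tauH y0 _ (FreeGroup.of b)) = _
        rcases b with x | y'
        · rw [tauH_inl, map_mul, map_zpow]
          have h0 : expo y (FreeGroup.of (Sum.inr y0)) = 1 := by
            rw [expo, FreeGroup.lift_apply_of, if_neg (fun k => hy k.symm)]
          rw [h0, one_zpow, mul_one]
        · rw [tauH_inr]
      exact DFunLike.congr_fun h g
    have hcard : Fintype.card (X ⊕ Unit) + (q + 1) * (2 * q + 1) ≤ Fintype.card (X ⊕ Y) := by
      rw [Fintype.card_sum, Fintype.card_sum, Fintype.card_unit, ← Nat.card_eq_fintype_card (α := Y)]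
      omega
    obtain ⟨m, hm⟩ := hT q (X ⊕ Unit) (X ⊕ Y) (eXY y0) (Sum.inr ()) (Sum.inl x0)
      (by rintro ⟨⟩) hcard ⟨tau y0 (Pi.single x0 1), hmem⟩
      (by
        change tauH y0 _ (FreeGroup.of (Sum.inl x0)) = _
        rw [tauH_inl, Pi.single_eq_same, zpow_one]; rfl)
      (by
        rintro (x | y) hb
        · change tauH y0 _ (FreeGroup.of (Sum.inl x)) = _
          rw [tauH_inl, Pi.single_eq_of_ne (fun h => hb (by rw [h]; rfl)), zpow_zero, mul_one]
        · exact tauH_inr y0 (Pi.single x0 1) y)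
      (𝟙 _) (fun _ => rfl) (hn jIn q x)
    refine ⟨m, ?_⟩
    have h1 := cR_nat_pow (Nz (eXY y0 (Sum.inr () : X ⊕ Unit))) (IA (FreeGroup (X ⊕ Y)))
      (Gp (eXY y0 (Sum.inr () : X ⊕ Unit))).subtype (jOut _) (fun _ => rfl) q
      ⟨tau y0 (Pi.single x0 1), hmem⟩ m (hn (upN (eXY y0) (Sum.inr ())) q (hn jIn q x))
    have h2 : hn (jOut _) q (hn (upN (eXY y0) (Sum.inr ())) q (hn jIn q x)) = v := by
      rw [hv, ← comp_eq y0, hn_comp, hn_comp]; rfl
    rw [h2] at h1
    refine h1.symm.trans ?_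
    have h3 : ((cR (Nz (eXY y0 (Sum.inr () : X ⊕ Unit))) q
      ⟨tau y0 (Pi.single x0 1), hmem⟩ - 1) ^ m) (hn (upN (eXY y0) (Sum.inr ())) q
        (hn jIn q x)) = 0 := hm
    rw [h3, map_zero]
  have comm : ∀ n m : X → ℤ, Commute (cR (IA (FreeGroup (X ⊕ Y))) q (tau y0 n))
      (cR (IA (FreeGroup (X ⊕ Y))) q (tau y0 m)) := by
    intro n m
    rw [Commute, SemiconjBy, ← map_mul, ← map_mul, tau_add, tau_add, add_comm]
  -- the subgroup of good vectors
  let S : AddSubgroup (X → ℤ) :=
    { carrier := {n | Kl (cR (IA (FreeGroup (X ⊕ Y))) q (tau y0 n) - 1) v}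
      zero_mem' := by
        change Kl _ v
        refine ⟨1, ?_⟩
        rw [tau_zero, map_one, sub_self, pow_one]; rfl
      add_mem' := fun {n m} hn' hm' => by
        change Kl _ v
        rw [← tau_add, map_mul]
        exact kl_mul (comm n m) hn' hm'
      neg_mem' := fun {n} hn' => by
        change Kl _ v
        refine kl_inv (A := cR (IA (FreeGroup (X ⊕ Y))) q (tau y0 n)) ?_ ?_ hn'
        · rw [← map_mul, tau_add, add_neg_cancel, tau_zero, map_one]
        · rw [← map_mul, tau_add, neg_add_cancel, tau_zero, map_one] }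
  have hS : ∀ n : X → ℤ, n ∈ S := by
    intro n
    have h1 : n = ∑ i, n i • Pi.single i (1 : ℤ) := by
      ext i
      rw [Finset.sum_apply, Finset.sum_eq_single i]
      · simp
      · intro j _ hj; simp [Pi.single_eq_of_ne hj.symm]
      · intro k; exact absurd (Finset.mem_univ _) k
    rw [h1]
    exact sum_mem fun i _ => zsmul_mem (key1 i) _
  have hf := hS (fun i => Multiplicative.toAdd (f (FreeGroup.of i)))
  have hcong : cR (IA (FreeGroup (X ⊕ Y))) q T = cR (IA (FreeGroup (X ⊕ Y))) q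
      (tau y0 (fun i => Multiplicative.toAdd (f (FreeGroup.of i)))) := by
    refine H57.cR_congr _ _ (fun g => H57.ab_letters
      (T : FreeGroup (X ⊕ Y) ≃* FreeGroup (X ⊕ Y)).toMonoidHom (tauH y0 _) ?_ g) q
    rintro (x | y)
    · rw [tauH_inl]; exact hT1 x
    · rw [tauH_inr]; exact hT2 y
  rw [hcong]
  exact hf

end main

end Pool.Agent.TST
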